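import Pool.Agent.EXS.BCX5

/-!
# Base change with weights `1, 1, -1, -1, 1`
-/

set_option autoImplicit false

open NumberField IsDedekindDomain
open scoped TensorProduct Classical

namespace StarkC

namespace ASY

open StarkC.EXS

/-- The weights of the base change. -/
def wts : Fin 5 → ℤ := ![1, 1, -1, -1, 1]

/-- The result of the base change. -/
def BaseA (T : Finset ℕ) (E : Type) [Field E] (F N : Type) [Field F] [NumberField F] [Field N]
    [NumberField N] [Algebra F N] [Algebra E N] (ψ : (N ≃ₐ[F] N) →* ℂˣ) (B : ℕ) : Prop :=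
  ∃ (N' : Type) (_ : Field N') (_ : NumberField N') (_ : Algebra N N') (_ : Algebra F N')
    (_ : Algebra E N') (_ : IsScalarTower F N N') (_ : IsScalarTower E N N') (_ : IsGalois ℚ N')
    (_ : IsGalois F N') (A : Fin 5 → Subgroup (N' ≃ₐ[F] N')) (ψA : ∀ r, A r →* ℂˣ),
    (∀ r (h : A r) (g : N ≃ₐ[F] N),
      (∀ z : N, (h : N' ≃ₐ[F] N') (algebraMap N N' z) = algebraMap N N' (g z)) →
      ψA r h = ψ g) ∧
    (∀ r, B ≤ Module.finrank ℚ (IntermediateField.fixedField (A r))) ∧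
    (∀ r, EXS.GoodE T E (liftChar (A r) (ψA r))) ∧
    ∀ g : N' ≃ₐ[F] N', ∑ r, (wts r : ℂ) * indFun (A r) (fun _ => 1) g = 1

open SSQBCX BCX5x in
theorem bcxA (hFM : FieldM) (hIDN : Stmt_IDN5)
    (T : Finset ℕ) (E : Type) [Field E] (F N : Type) [Field F] [NumberField F] [Field N]
    [NumberField N] [Algebra F N] [Algebra E N] [IsGalois F N] [IsGalois ℚ N]
    (ψ : (N ≃ₐ[F] N) →* ℂˣ) (hψ : EXS.GoodE T E ψ) (B : ℕ) : BaseA T E F N ψ B := by
  set l₁ : ℕ := B + 1 with hl₁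
  set l₂ : ℕ := B + 2 with hl₂
  have hB₁ : B ≤ l₁ := by omega
  have hB₂ : B ≤ l₂ := by omega
  obtain ⟨q, N', _, _, _, _, ζ, κ, hq, hBq, hmq, hζ, hκ, htr⟩ := hFM N B (l₁ * l₂)
    (Nat.mul_pos (by omega) (by omega))
  have hfq : Fact q.Prime := ⟨hq⟩
  have hnq : NeZero q := ⟨hq.ne_zero⟩
  let _ : Algebra F N' := ((algebraMap N N').comp (algebraMap F N)).toAlgebra
  have hst : IsScalarTower F N N' := IsScalarTower.of_algebraMap_eq (fun _ => rfl)
  let _ : Algebra E N' := ((algebraMap N N').comp (algebraMap E N)).toAlgebra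
  have hstE : IsScalarTower E N N' := IsScalarTower.of_algebraMap_eq (fun _ => rfl)
  have hgal : IsGalois F N' := IsGalois.tower_top_of_isGalois ℚ F N'
  have h2 : (2 : N') ≠ 0 := two_ne_zero
  have hd₁ : l₁ ∣ q - 1 := (Dvd.intro _ rfl).trans hmq
  have hd₂ : l₂ ∣ q - 1 := (Dvd.intro_left _ rfl).trans hmq
  -- transitivity on the pairs of exponents, over `N`
  have hsur : ∀ (s : ZMod q) (t : (ZMod q)ˣ), ∃ h : N' ≃ₐ[N] N',
      aa (F := F) hζ hκ h2 (h.restrictScalars F) = s ∧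
        hζ.autToPow F (h.restrictScalars F) = t := by
    intro s t
    obtain ⟨h, hh1, hh2⟩ := htr s.val (t : ZMod q).val (ZMod.val_coe_unit_coprime t)
    refine ⟨h, ?_, ?_⟩
    · rw [aa_eq hζ hκ h2 (h.restrictScalars F) s.val hh2, ZMod.natCast_zmod_val]
    · apply Units.ext
      rw [bb_eq hζ (h.restrictScalars F) (t : ZMod q).val hh1, ZMod.natCast_zmod_val]
  let A0 : Subgroup (N' ≃ₐ[F] N') := MulAction.stabilizer (N' ≃ₐ[F] N') κ
  let C : ℕ → Subgroup (N' ≃ₐ[F] N') := fun l =>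
    (powMonoidHom ((q - 1) / l) : (ZMod q)ˣ →* (ZMod q)ˣ).ker.comap (hζ.autToPow F)
  have hA0 : ∀ g, g ∈ A0 ↔ aa (F := F) hζ hκ h2 g = 0 := by
    intro g
    rw [aa_zero_iff]
    exact Iff.rfl
  have hC : ∀ l g, g ∈ C l ↔ hζ.autToPow F g ^ ((q - 1) / l) = 1 := fun l g => Iff.rfl
  have hAC : ∀ l g, g ∈ A0 ⊓ C l ↔
      aa (F := F) hζ hκ h2 g = 0 ∧ hζ.autToPow F g ^ ((q - 1) / l) = 1 := by
    intro l g
    rw [Subgroup.mem_inf, hA0, hC]
  obtain ⟨i0, i1, i2, hid⟩ := hIDN (N' ≃ₐ[F] N') q (hζ.autToPow F) (aa (F := F) hζ hκ h2) l₁ l₂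
    A0 (A0 ⊓ C l₁) (C l₁) (A0 ⊓ C l₂) (C l₂) (aa_mul hζ hκ h2) (fun s t => by
        obtain ⟨h, hh⟩ := hsur s t
        exact ⟨_, hh⟩) hd₁ hd₂ hA0 (hAC l₁) (hC l₁) (hAC l₂) (hC l₂)
  have hidx : ∀ l, (C l).index ≤ (A0 ⊓ C l).index := fun l =>
    Nat.le_of_dvd (Nat.pos_of_ne_zero Subgroup.index_ne_zero_of_finite)
      (Subgroup.index_dvd_of_le inf_le_right)
  let A : Fin 5 → Subgroup (N' ≃ₐ[F] N') := ![A0, A0 ⊓ C l₁, C l₁, A0 ⊓ C l₂, C l₂]
  have hAidx : ∀ r, B ≤ (A r).index := by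
    intro r
    fin_cases r
    · show B ≤ A0.index
      omega
    · show B ≤ (A0 ⊓ C l₁).index
      have := hidx l₁
      omega
    · show B ≤ (C l₁).index
      omega
    · show B ≤ (A0 ⊓ C l₂).index
      have := hidx l₂
      omega
    · show B ≤ (C l₂).index
      omega
  refine ⟨N', inferInstance, inferInstance, inferInstance, inferInstance, inferInstance,
    inferInstance, inferInstance, inferInstance, inferInstance, A,
    fun r => (ψ.comp (AlgEquiv.restrictNormalHom N :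
      (N' ≃ₐ[F] N') →* (N ≃ₐ[F] N))).comp (A r).subtype, ?_, ?_, ?_, ?_⟩
  · intro r h g hg
    show ψ (AlgEquiv.restrictNormalHom N (h : N' ≃ₐ[F] N')) = ψ g
    congr 1
    ext z
    apply (algebraMap N N').injective
    rw [← hg z]
    exact AlgEquiv.restrictNormal_commutes (h : N' ≃ₐ[F] N') N z
  · intro r
    exact (hAidx r).trans (index_le_finrank (A r))
  · intro r
    exact good_ofE T E (A r) ψ hψ
  · intro g
    have h3 := hid (-1) 1 (by rw [hl₁, hl₂]; push_cast; ring) g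
    rw [Fin.sum_univ_five]
    show ((1 : ℤ) : ℂ) * indFun A0 (fun _ => 1) g + ((1 : ℤ) : ℂ) * indFun (A0 ⊓ C l₁) (fun _ => 1) g
      + ((-1 : ℤ) : ℂ) * indFun (C l₁) (fun _ => 1) g
      + ((-1 : ℤ) : ℂ) * indFun (A0 ⊓ C l₂) (fun _ => 1) g
      + ((1 : ℤ) : ℂ) * indFun (C l₂) (fun _ => 1) g = 1
    rw [indFun_one, indFun_one, indFun_one, indFun_one, indFun_one]
    push_cast at h3 ⊢
    linear_combination h3

end ASY

end StarkC
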