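import Pool.Agent.ASY.UCALC
import Pool.Agent.StarkT.DOWNL

/-!
# Stark's assertion up to a factor in a set: descent to `ℚ` and limits
-/

set_option autoImplicit false

open NumberField IsDedekindDomain
open scoped TensorProduct Classical

namespace StarkC

namespace ASY

theorem rep_iff (U : Set ℂˣ) {K L : Type} [Field K] [NumberField K] [Field L] [NumberField L]
    [Algebra K L] [IsGalois K L] {V V' : Type} [AddCommGroup V] [Module ℂ V] [AddCommGroup V']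
    [Module ℂ V'] (ρ : Representation ℂ (L ≃ₐ[K] L) V) (ρ' : Representation ℂ (L ≃ₐ[K] L) V')
    (σ : ℂ ≃+* ℂ) (S : Finset (HeightOneSpectrum (𝓞 K))) :
    (∀ Θ : ((L → ℝ) →₀ ℂ) →ₗ[ℂ] ((L → ℝ) →₀ ℂ),
      StarkP.IsTheta K (StarkP.aboveSet K L (S : Set (HeightOneSpectrum (𝓞 K)))) Θ →
      StarkW.AtIn U (S : Set (HeightOneSpectrum (𝓞 K)))
        (StarkP.aboveSet K L (S : Set (HeightOneSpectrum (𝓞 K)))) Θ ρ ρ' σ) ↔
    ∀ (φ : XQ L (aboveSet K L S) ≃ₗ[ℚ] QU L (aboveSet K L S))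
      (Θ : XC L (aboveSet K L S) →ₗ[ℂ] XC L (aboveSet K L S)),
      IsPhiTheta K (aboveSet K L S) φ Θ →
      AtU U 1 (S : Set (HeightOneSpectrum (𝓞 K))) (aboveSet K L S) Θ ρ ρ' σ := by
  have hT := StarkC.STB_thm K L (S : Set (HeightOneSpectrum (𝓞 K)))
  have hfin : (StarkC.aboveSet K L (S : Set (HeightOneSpectrum (𝓞 K)))).Finite :=
    StarkC.IND.aboveSet_finite _ (Finset.finite_toSet _)
  rw [StarkB.aboveSet_eq]
  constructor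
  · intro h φ Θ hφ
    obtain ⟨Θ', hΘ'⟩ := LinearMap.exists_extend (p := StarkC.XCsub L
        (StarkC.aboveSet K L (S : Set (HeightOneSpectrum (𝓞 K)))))
      (StarkC.XC.val ∘ₗ Θ : StarkC.XCsub L
        (StarkC.aboveSet K L (S : Set (HeightOneSpectrum (𝓞 K)))) →ₗ[ℂ] ((L → ℝ) →₀ ℂ))
    have h1 : ∀ x : StarkC.XC L (StarkC.aboveSet K L (S : Set (HeightOneSpectrum (𝓞 K)))),
        Θ' x.val = (Θ x).val := fun x => LinearMap.congr_fun hΘ' x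
    obtain ⟨f, f', hf, hf', u, hu, hE⟩ := h Θ' (StarkB.isTheta_of hT hfin φ Θ hφ Θ' h1)
    refine ⟨f, f', (artin_one _ _ _).2 hf, (artin_one _ _ _).2 hf', u, hu, ?_⟩
    rw [pow_one, pow_one, ← StarkB.Reg_eq _ Θ Θ' h1, ← StarkB.Reg_eq _ Θ Θ' h1]
    exact hE
  · intro h Θ' hΘ'
    obtain ⟨φ, Θ, hφ, h1⟩ := StarkB.exists_phiTheta hT hfin (StarkB.actU_mem' _) Θ' hΘ'
    obtain ⟨f, f', hf, hf', u, hu, hE⟩ := h φ Θ hφ
    refine ⟨f, f', (artin_one _ _ _).1 hf, (artin_one _ _ _).1 hf', u, hu, ?_⟩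
    rw [pow_one, pow_one] at hE
    rw [StarkB.Reg_eq _ Θ Θ' h1, StarkB.Reg_eq _ Θ Θ' h1]
    exact hE

theorem linIn_iff (U : Set ℂˣ) (σ : ℂ ≃+* ℂ) {K L : Type} [Field K] [NumberField K] [Field L]
    [NumberField L] [Algebra K L] [IsGalois K L] (ψ : (L ≃ₐ[K] L) →* ℂˣ) :
    StarkW.LinIn U σ ψ ↔ InfU U σ K L ψ := by
  have h := rep_iff U (linRep ψ) (linRep (twist σ ψ)) σ (∅ : Finset (HeightOneSpectrum (𝓞 K)))
  rw [Finset.coe_empty] at h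
  unfold StarkW.LinIn InfU
  rw [Finset.coe_empty]
  exact h

/-- The totally odd characters up to a factor. -/
theorem ofDU (U : Set ℂˣ) (σ : ℂ ≃+* ℂ) (hD : StarkW.OddIn U σ)
    (F N : Type) [Field F] [NumberField F] [Field N] [NumberField N] [Algebra F N] [IsGalois F N]
    (ψ : (N ≃ₐ[F] N) →* ℂˣ) (hF : IsTotallyReal F)
    (ho : ∀ (Φ : N →+* ℂ) (c : N ≃ₐ[F] N), ComplexEmbedding.IsConj Φ c → (ψ c : ℂ) = -1) :
    LinU U σ F N ψ := by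
  obtain ⟨L, _, _, _, _, _, _, ψ', hinj, hψ'⟩ := FAITH.exists_field F N ψ
  exact upU U σ F L N ψ' ((linIn_iff U σ ψ').1 (hD F L ψ' hinj
    ⟨hF, SFAITH.odd_down F L N hψ' ho⟩)) ψ hψ'

/-! ### Descent to `ℚ` -/

/-- Stark's conjecture over `ℚ` at `σ` up to a factor in `U`. -/
def ConjQU (U : Set ℂˣ) (σ : ℂ ≃+* ℂ) : Prop :=
  ∀ (L : Type) [Field L] [NumberField L] [IsGalois ℚ L]
    (S : Finset (HeightOneSpectrum (𝓞 ℚ)))
    (φ : XQ L (aboveSet ℚ L S) ≃ₗ[ℚ] QU L (aboveSet ℚ L S))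
    (Θ : XC L (aboveSet ℚ L S) →ₗ[ℂ] XC L (aboveSet ℚ L S))
    (V V' : Type) [AddCommGroup V] [Module ℂ V] [Module.Finite ℂ V]
    [AddCommGroup V'] [Module ℂ V'] [Module.Finite ℂ V']
    (ρ : Representation ℂ (L ≃ₐ[ℚ] L) V) (ρ' : Representation ℂ (L ≃ₐ[ℚ] L) V'),
    IsPhiTheta ℚ (aboveSet ℚ L S) φ Θ → (∀ g, ρ'.character g = σ (ρ.character g)) →
    AtU U 1 (S : Set (HeightOneSpectrum (𝓞 ℚ))) (aboveSet ℚ L S) Θ ρ ρ' σ

theorem downU (U : Set ℂˣ) (E K N : Type) [Field E] [NumberField E] [Field K] [NumberField K]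
    [Field N] [NumberField N] [Algebra E K] [Algebra E N] [Algebra K N] [IsScalarTower E K N]
    [IsGalois E N] [IsGalois K N]
    (S₀ : Finset (HeightOneSpectrum (𝓞 E))) (S : Finset (HeightOneSpectrum (𝓞 K)))
    (hS : aboveSet K N (S : Set (HeightOneSpectrum (𝓞 K))) = aboveSet E N S₀)
    (φ : XQ N (aboveSet E N S₀) ≃ₗ[ℚ] QU N (aboveSet E N S₀))
    (Θ : XC N (aboveSet E N S₀) →ₗ[ℂ] XC N (aboveSet E N S₀))
    (hφ : IsPhiTheta E (aboveSet E N S₀) φ Θ)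
    (V V' : Type) [AddCommGroup V] [Module ℂ V] [Module.Finite ℂ V]
    [AddCommGroup V'] [Module ℂ V'] [Module.Finite ℂ V']
    (ρ : Representation ℂ (N ≃ₐ[E] N) V) (ρ' : Representation ℂ (N ≃ₐ[E] N) V')
    (ψ : (N ≃ₐ[K] N) →* ℂˣ) (σ : ℂ ≃+* ℂ)
    (hρ : ∀ g, ρ.character g = indFun (fixK E K N) (extK E ψ) g)
    (hσ : ∀ g, ρ'.character g = σ (ρ.character g)) (M : ℕ)
    (hst : AtU U M (S₀ : Set (HeightOneSpectrum (𝓞 E))) (aboveSet E N S₀) Θ ρ ρ' σ) :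
    AtU U M (S : Set (HeightOneSpectrum (𝓞 K))) (aboveSet E N S₀) Θ
      (linRep ψ) (linRep (twist σ ψ)) σ := by
  have hTf : (aboveSet E N (S₀ : Set (HeightOneSpectrum (𝓞 E)))).Finite :=
    IND.aboveSet_finite _ S₀.finite_toSet
  have hT := STB_thm E N (S₀ : Set (HeightOneSpectrum (𝓞 E)))
  have hc := ALLT.thc E N _ hT φ Θ hTf hφ
  have hb := ALLT.thb E N _ φ Θ hTf hφ
  obtain ⟨f, f', hf, hf', u, hu, hR⟩ := hst
  have hρ' : ∀ g, ρ'.character g = indFun (fixK E K N) (extK E (twist σ ψ)) g := by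
    intro g
    rw [hσ, hρ, DOWNL.twist_ind]
  have hart : ∀ (W : Type) [AddCommGroup W] [Module ℂ W] (η : Representation ℂ (N ≃ₐ[E] N) W)
      (χ : (N ≃ₐ[K] N) →* ℂˣ), (∀ g, η.character g = indFun (fixK E K N) (extK E χ) g) →
      ∀ f : ℂ → ℂ,
      IsArtinLMul M η.character (S₀ : Set (HeightOneSpectrum (𝓞 E))) f →
      IsArtinLMul M (linRep χ).character (S : Set (HeightOneSpectrum (𝓞 K))) f := by
    intro W _ _ η χ hη f hf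
    refine ⟨hf.1, fun s hs => ?_⟩
    have h1 := DOWNL.logL_eq (E := E) (K := K) (N := N) ALLT.lb (LC_thm LA_thm) χ
      (S₀ : Set (HeightOneSpectrum (𝓞 E))) (S : Set (HeightOneSpectrum (𝓞 K))) hS s hs
    rw [hf.2 s hs, show η.character = indFun (fixK E K N) (extK E χ) from funext hη,
      IND.linRep_character, h1]
  refine ⟨f, f', hart V ρ ψ hρ f hf, hart V' ρ' (twist σ ψ) hρ' f' hf', u, hu, ?_⟩
  rw [← DOWNL.reg_eq TRD_thm ALLT.rgt hTf hT Θ hb hc V ρ ψ hρ,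
    ← DOWNL.reg_eq TRD_thm ALLT.rgt hTf hT Θ hb hc V' ρ' (twist σ ψ) hρ']
  exact hR

theorem sind_castU (U : Set ℂˣ) {F N : Type} [Field F] [NumberField F] [Field N]
    [NumberField N] [Algebra F N] [IsGalois F N] (ψ : (N ≃ₐ[F] N) →* ℂˣ) (σ : ℂ ≃+* ℂ) (M : ℕ)
    (S₁ S₂ : Finset (HeightOneSpectrum (𝓞 F))) (T : Set (HeightOneSpectrum (𝓞 N)))
    (hT : aboveSet F N (S₁ : Set (HeightOneSpectrum (𝓞 F))) = T)
    (φ : XQ N T ≃ₗ[ℚ] QU N T) (Θ : XC N T →ₗ[ℂ] XC N T)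
    (φ₂ : XQ N (aboveSet F N S₂) ≃ₗ[ℚ] QU N (aboveSet F N S₂))
    (Θ₂ : XC N (aboveSet F N S₂) →ₗ[ℂ] XC N (aboveSet F N S₂))
    (h₁ : IsPhiTheta F T φ Θ) (h₂ : IsPhiTheta F (aboveSet F N S₂) φ₂ Θ₂)
    (h : AtU U M (S₁ : Set (HeightOneSpectrum (𝓞 F))) T Θ
      (linRep ψ) (linRep (twist σ ψ)) σ) :
    AtU U M (S₂ : Set (HeightOneSpectrum (𝓞 F))) (aboveSet F N S₂) Θ₂
      (linRep ψ) (linRep (twist σ ψ)) σ := by
  subst hT
  exact sindU U F N ψ σ M S₁ S₂ φ Θ φ₂ Θ₂ h₁ h₂ h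

/-- Data over `F`, `N` with `N/ℚ` Galois. -/
theorem linearNU {U : Set ℂˣ} {σ : ℂ ≃+* ℂ} (hPQ : ConjQU U σ)
    (F N : Type) [Field F] [NumberField F] [Field N] [NumberField N] [Algebra F N]
    [IsGalois F N] [IsGalois ℚ N] (ψ : (N ≃ₐ[F] N) →* ℂˣ) : LinU U σ F N ψ := by
  intro S φ Θ hφ
  obtain ⟨S₁, hS₁⟩ := BASEQ.exists_S1 (E := ℚ) (F := F) (N := N) ∅
  obtain ⟨φ₀, Θ₀, h₀⟩ := SFULL.exph ℚ N ∅
  obtain ⟨V, _, _, _, ρ, hρ⟩ := INDREP_thm (N ≃ₐ[ℚ] N) (fixK ℚ F N) (BASEQ.chr ℚ ψ)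
  obtain ⟨V', _, _, _, ρ', hρ'⟩ := INDREP_thm (N ≃ₐ[ℚ] N) (fixK ℚ F N)
    (twist σ (BASEQ.chr ℚ ψ))
  have hσ : ∀ g, ρ'.character g = σ (ρ.character g) := by
    intro g
    rw [hρ', hρ, IND.twist_indFun]
  have hst := hPQ N ∅ φ₀ Θ₀ V V' ρ ρ' h₀ hσ
  have h1 := downU U ℚ F N ∅ S₁ hS₁ φ₀ Θ₀ h₀ V V' ρ ρ' ψ σ (fun g => by
    rw [hρ, BASEQ.extZ_chr]) hσ 1 hst
  exact sind_castU U ψ σ 1 S₁ S _ hS₁ φ₀ Θ₀ φ Θ (BASEQ.isPhiTheta_res h₀) hφ h1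

/-- Data over `F`, `L`. -/
theorem linearU {U : Set ℂˣ} {σ : ℂ ≃+* ℂ} (hPQ : ConjQU U σ)
    (F L : Type) [Field F] [NumberField F] [Field L] [NumberField L] [Algebra F L]
    [IsGalois F L] (ψ : (L ≃ₐ[F] L) →* ℂˣ) : LinU U σ F L ψ := by
  intro S φ Θ hφ
  obtain ⟨N, _, _, _, _, _⟩ := GALQ_thm L
  let alg : Algebra F N := ((algebraMap L N).comp (algebraMap F L)).toAlgebra
  have hst : IsScalarTower F L N := IsScalarTower.of_algebraMap_eq fun x => rfl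
  have hgal : IsGalois F N := IsGalois.tower_top_of_isGalois ℚ F N
  obtain ⟨φ', Θ', hφ', hReg⟩ := RFULL.infl F L N S φ Θ hφ
  obtain ⟨f, f', hf, hf', u, hu, hEq⟩ := linearNU hPQ F N
    (ψ.comp (AlgEquiv.restrictNormalHom L)) S φ' Θ' hφ'
  refine ⟨f, f', ⟨hf.1, fun s hs => ?_⟩, ⟨hf'.1, fun s hs => ?_⟩, u, hu, ?_⟩
  · rw [hf.2 s hs, BASEQ.linRep_comp, MAIN.logL_infl LINF_thm]
  · rw [hf'.2 s hs]
    have h1 := MAIN.logL_infl LINF_thm F L N ℂ (linRep (twist σ ψ))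
      (S : Set (HeightOneSpectrum (𝓞 F))) s
    rw [← h1]
    rfl
  · have h1 := hReg ℂ (linRep ψ)
    have h2 := hReg ℂ (linRep (twist σ ψ))
    rw [← h1, ← h2]
    exact hEq

/-- Stark's conjecture at `σ` up to a factor in a subgroup from its case over `ℚ`. -/
theorem conjIn_of_conjQU (U : Subgroup ℂˣ) {σ : ℂ ≃+* ℂ} (hPQ : ConjQU (U : Set ℂˣ) σ) :
    StarkW.ConjIn (U : Set ℂˣ) σ := by
  intro K L V V' _ _ _ _ _ _ _ _ _ _ _ _ ρ ρ' hσ S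
  refine (rep_iff (U : Set ℂˣ) ρ ρ' σ S).2 fun φ Θ hφ => ?_
  obtain ⟨m, H, ψ, n, hχ⟩ := SFULL.bra (L ≃ₐ[K] L) V ρ
  exact indU (U : Set ℂˣ) σ K L S φ Θ V V' ρ ρ' m H ψ n hφ hσ hχ (fun _ => (U : Set ℂˣ))
    (fun u hu => word_mem U n u hu) fun i =>
    linearU hPQ (IntermediateField.fixedField (H i)) L (liftChar (H i) (ψ i))

/-- A linear character from Stark's conjecture at `σ`. -/
theorem linIn_of_conjIn {U : Set ℂˣ} {σ : ℂ ≃+* ℂ} (h : StarkW.ConjIn U σ) (K L : Type) [Field K]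
    [NumberField K] [Field L] [NumberField L] [Algebra K L] [IsGalois K L]
    (ψ : (L ≃ₐ[K] L) →* ℂˣ) : StarkW.LinIn U σ ψ := by
  intro Θ hΘ
  have h1 := h K L ℂ ℂ (linRep ψ) (linRep (twist σ ψ)) (fun g => by
    rw [MAIN.linRep_character, MAIN.linRep_character]
    rfl) ∅ Θ
  rw [Finset.coe_empty] at h1
  exact h1 hΘ

theorem atU_mono {U W : Set ℂˣ} (h : U ⊆ W) {K L : Type} [Field K] [NumberField K] [Field L]
    [NumberField L] [Algebra K L] {M : ℕ} {S : Set (HeightOneSpectrum (𝓞 K))}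
    {T : Set (HeightOneSpectrum (𝓞 L))} {Θ : XC L T →ₗ[ℂ] XC L T}
    {V V' : Type} [AddCommGroup V] [Module ℂ V] [AddCommGroup V'] [Module ℂ V']
    {ρ : Representation ℂ (L ≃ₐ[K] L) V} {ρ' : Representation ℂ (L ≃ₐ[K] L) V'}
    {σ : ℂ ≃+* ℂ} (hU : AtU U M S T Θ ρ ρ' σ) : AtU W M S T Θ ρ ρ' σ := by
  obtain ⟨f, f', hf, hf', u, hu, hE⟩ := hU
  exact ⟨f, f', hf, hf', u, h hu, hE⟩

/-- If the assertion holds up to a factor in each of the sets it holds up to a factor in their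
intersection. -/
theorem atU_inter {K L : Type} [Field K] [NumberField K] [Field L]
    [NumberField L] [Algebra K L] {S : Set (HeightOneSpectrum (𝓞 K))}
    {T : Set (HeightOneSpectrum (𝓞 L))} {Θ : XC L T →ₗ[ℂ] XC L T}
    {V V' : Type} [AddCommGroup V] [Module ℂ V] [AddCommGroup V'] [Module ℂ V']
    {ρ : Representation ℂ (L ≃ₐ[K] L) V} {ρ' : Representation ℂ (L ≃ₐ[K] L) V'}
    {σ : ℂ ≃+* ℂ} (P : Set (Set ℂˣ)) (hne : P.Nonempty) (h1 : ∀ U ∈ P, (1 : ℂˣ) ∈ U)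
    (h : ∀ U ∈ P, AtU U 1 S T Θ ρ ρ' σ) : AtU (⋂₀ P) 1 S T Θ ρ ρ' σ := by
  obtain ⟨U₀, hU₀⟩ := hne
  obtain ⟨f, f', hf, hf', u, hu, hE⟩ := h U₀ hU₀
  by_cases h0 : Reg T ρ' Θ ^ 1 / meromorphicTrailingCoeffAt f' 0 = 0
  · refine ⟨f, f', hf, hf', 1, fun U hU => h1 U hU, ?_⟩
    rw [h0, mul_zero] at hE
    rw [h0, hE, mul_zero]
  · refine ⟨f, f', hf, hf', u, fun U hU => ?_, hE⟩
    obtain ⟨g, g', hg, hg', w, hw, hE2⟩ := h U hU
    have e1 : meromorphicTrailingCoeffAt g 0 = meromorphicTrailingCoeffAt f 0 :=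
      RIG.trail_unique hg.1 hf.1 fun s hs => by rw [hg.2 s hs, hf.2 s hs]
    have e2 : meromorphicTrailingCoeffAt g' 0 = meromorphicTrailingCoeffAt f' 0 :=
      RIG.trail_unique hg'.1 hf'.1 fun s hs => by rw [hg'.2 s hs, hf'.2 s hs]
    rw [e1, e2, hE] at hE2
    have e3 : (u : ℂ) = w := mul_right_cancel₀ h0 hE2
    have e4 : u = w := Units.ext e3
    rw [e4]
    exact hw

end ASY

end StarkC
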