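import Mathlib.Topology.Algebra.Group.GroupTopology
import Pool.Agent.EXS.PDefsQ

/-!
# Stark's assertion up to a factor in a set: printable definitions
-/

open NumberField IsDedekindDomain
open scoped Classical

namespace StarkW

open StarkP

/-- Stark's assertion up to a factor in `U`, `A_S(χ, φ)^σ ∈ U A_S(χ^σ, φ)`, with the given `S` and
`Θ` (`φ`), where `χ`, `χ^σ` are the characters of `ρ`, `ρ'`. -/
def AtIn (U : Set ℂˣ) {K L : Type} [Field K] [NumberField K] [Field L] [NumberField L]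
    [Algebra K L] (S : Set (HeightOneSpectrum (𝓞 K))) (T : Set (HeightOneSpectrum (𝓞 L)))
    (Θ : ((L → ℝ) →₀ ℂ) →ₗ[ℂ] ((L → ℝ) →₀ ℂ))
    {V V' : Type} [AddCommGroup V] [Module ℂ V] [AddCommGroup V'] [Module ℂ V']
    (ρ : Representation ℂ (L ≃ₐ[K] L) V) (ρ' : Representation ℂ (L ≃ₐ[K] L) V')
    (σ : ℂ ≃+* ℂ) : Prop :=
  ∃ f f' : ℂ → ℂ, IsArtinL ρ.character S f ∧ IsArtinL ρ'.character S f' ∧
    ∃ u ∈ U, σ (Reg T ρ Θ / meromorphicTrailingCoeffAt f 0) =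
      (u : ℂ) * (Reg T ρ' Θ / meromorphicTrailingCoeffAt f' 0)

/-- Stark's assertion for `σ` up to a factor in `U` with `S = S_∞` for the linear character `ψ` and
all `φ`. -/
def LinIn (U : Set ℂˣ) (σ : ℂ ≃+* ℂ) {K L : Type} [Field K] [NumberField K] [Field L]
    [NumberField L] [Algebra K L] (ψ : (L ≃ₐ[K] L) →* ℂˣ) : Prop :=
  ∀ Θ : ((L → ℝ) →₀ ℂ) →ₗ[ℂ] ((L → ℝ) →₀ ℂ), IsTheta K (aboveSet K L ∅) Θ →
    AtIn U ∅ (aboveSet K L ∅) Θ (linRep ψ) (linRep (twist σ ψ)) σ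

/-- Stark's assertion for `σ` up to a factor in `U` with `S = S_∞` for all injective totally odd
linear characters of `Gal(L/K)`, for all finite Galois extensions `L/K` of totally real number
fields `K`. -/
def OddIn (U : Set ℂˣ) (σ : ℂ ≃+* ℂ) : Prop :=
  ∀ (K L : Type) [Field K] [NumberField K] [Field L] [NumberField L] [Algebra K L] [IsGalois K L]
    (ψ : (L ≃ₐ[K] L) →* ℂˣ), Function.Injective ψ → CaseD K L ψ → LinIn U σ ψ

/-- Stark's conjecture for the automorphism `σ` up to a factor in `U`, for all finite Galois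
extensions of number fields, all `S`, `φ` and all characters. -/
def ConjIn (U : Set ℂˣ) (σ : ℂ ≃+* ℂ) : Prop :=
  ∀ (K L V V' : Type) [Field K] [NumberField K] [Field L] [NumberField L] [Algebra K L]
    [IsGalois K L] [AddCommGroup V] [Module ℂ V] [Module.Finite ℂ V]
    [AddCommGroup V'] [Module ℂ V'] [Module.Finite ℂ V']
    (ρ : Representation ℂ (L ≃ₐ[K] L) V) (ρ' : Representation ℂ (L ≃ₐ[K] L) V'),
    (∀ g, ρ'.character g = σ (ρ.character g)) →
    ∀ (S : Finset (HeightOneSpectrum (𝓞 K))) (Θ : ((L → ℝ) →₀ ℂ) →ₗ[ℂ] ((L → ℝ) →₀ ℂ)),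
      IsTheta K (aboveSet K L S) Θ → AtIn U S (aboveSet K L S) Θ ρ ρ' σ

/-- For `j ∈ J`, `j → ∞`, the factors `A(ψ_j)^σ / A(ψ_j^σ)` with `S = S_∞` tend to `1` in the group
topology `τ`. -/
def LimOne (τ : GroupTopology ℂˣ) (J : Set ℕ) (σ : ℂ ≃+* ℂ) (K L : ℕ → Type)
    [∀ j, Field (K j)] [∀ j, NumberField (K j)] [∀ j, Field (L j)] [∀ j, NumberField (L j)]
    [∀ j, Algebra (K j) (L j)] (ψ : ∀ j, (L j ≃ₐ[K j] L j) →* ℂˣ) : Prop :=
  ∀ U ∈ @nhds ℂˣ τ.toTopologicalSpace 1, ∀ᶠ j in Filter.atTop, j ∈ J → LinIn U σ (ψ j)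

/-- The closure of `1` in the group topology `τ`. -/
def clOne (τ : GroupTopology ℂˣ) : Set ℂˣ := @closure ℂˣ τ.toTopologicalSpace {1}

end StarkW
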