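import Pool.Agent.ASY.PDefsA

/-!
# Slowly varying factors: printable definition
-/

open NumberField IsDedekindDomain
open scoped Classical

namespace StarkW

open StarkP

/-- For almost all `j ∈ J` there is a factor `u_j` with `A(ψ_j, φ)^σ = u_j A(ψ_j^σ, φ)` for all `φ`,
with `S = S_∞`, and `u_(j+1) / u_j` tends to `1` in the group topology `τ` for `j ∈ J`,
`j + 1 ∈ J`, `j → ∞`. -/
def SlowOne (τ : GroupTopology ℂˣ) (J : Set ℕ) (σ : ℂ ≃+* ℂ) (K L : ℕ → Type)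
    [∀ j, Field (K j)] [∀ j, NumberField (K j)] [∀ j, Field (L j)] [∀ j, NumberField (L j)]
    [∀ j, Algebra (K j) (L j)] (ψ : ∀ j, (L j ≃ₐ[K j] L j) →* ℂˣ) : Prop :=
  ∃ u : ℕ → ℂˣ, (∀ᶠ j in Filter.atTop, j ∈ J → LinIn {u j} σ (ψ j)) ∧
    ∀ U ∈ @nhds ℂˣ τ.toTopologicalSpace 1, ∀ᶠ j in Filter.atTop,
      j ∈ J → j + 1 ∈ J → u (j + 1) / u j ∈ U

end StarkW
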