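import Pool.Agent.ASY.UNIQ
import Pool.Agent.EXS.SEQ1

/-!
# A relation between the factors of three characters
-/

set_option autoImplicit false

open NumberField IsDedekindDomain
open scoped TensorProduct Classical

namespace StarkC

namespace ASY

open StarkC.EXS

section two

variable {G : Type} [Group G] {g : G}

theorem mem_two (h2 : g * g = 1) {x : G} (hx : x ∈ Subgroup.zpowers g) : x = 1 ∨ x = g := by
  obtain ⟨n, rfl⟩ := Subgroup.mem_zpowers_iff.1 hx
  have h3 : g ^ (2 : ℤ) = 1 := by rw [zpow_ofNat, pow_two, h2]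
  rcases Int.even_or_odd' n with ⟨k, rfl | rfl⟩
  · left
    rw [zpow_mul, h3, one_zpow]
  · right
    rw [zpow_add, zpow_mul, h3, one_zpow, one_mul, zpow_one]

/-- The nontrivial character of a group of order two. -/
noncomputable def sgn (h1 : g ≠ 1) (h2 : g * g = 1) : Subgroup.zpowers g →* ℂˣ where
  toFun x := if (x : G) = 1 then 1 else -1
  map_one' := by simp
  map_mul' x y := by
    rcases mem_two h2 x.2 with hx | hx <;> rcases mem_two h2 y.2 with hy | hy <;>
      simp [hx, hy, h1, h2]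

theorem card_two (h1 : g ≠ 1) (h2 : g * g = 1) : Nat.card (Subgroup.zpowers g) = 2 := by
  rw [Nat.card_zpowers]
  exact orderOf_eq_prime (by rw [pow_two, h2]) h1

theorem sgn_sq (h1 : g ≠ 1) (h2 : g * g = 1) : sgn h1 h2 ^ 2 = 1 := by
  refine MonoidHom.ext fun x => ?_
  rw [MonoidHom.pow_apply]
  show (if (x : G) = 1 then (1 : ℂˣ) else -1) ^ 2 = 1
  split_ifs
  · rw [one_pow]
  · rw [neg_one_sq]

theorem ind_two [Fintype G] (h1 : g ≠ 1) (h2 : g * g = 1) (x : G) :
    indFun (⊥ : Subgroup G) (extZ (1 : (⊥ : Subgroup G) →* ℂˣ)) x =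
      indFun (Subgroup.zpowers g) (extZ (1 : Subgroup.zpowers g →* ℂˣ)) x +
        indFun (Subgroup.zpowers g) (extZ (sgn h1 h2)) x := by
  have key : ∀ z : G, (if z ∈ (⊥ : Subgroup G) then
      extZ (1 : (⊥ : Subgroup G) →* ℂˣ) z else 0) =
      ((if z ∈ Subgroup.zpowers g then extZ (1 : Subgroup.zpowers g →* ℂˣ) z else 0) +
        (if z ∈ Subgroup.zpowers g then extZ (sgn h1 h2) z else 0)) / 2 := by
    intro z
    by_cases hz : z ∈ Subgroup.zpowers g
    · have e1 : extZ (1 : Subgroup.zpowers g →* ℂˣ) z = 1 := by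
        unfold extZ
        rw [dif_pos hz]
        simp
      rcases mem_two h2 hz with rfl | hz1
      · have e2 : extZ (sgn h1 h2) (1 : G) = 1 := by
          unfold extZ
          rw [dif_pos hz]
          show ((if (1 : G) = 1 then (1 : ℂˣ) else -1 : ℂˣ) : ℂ) = 1
          rw [if_pos rfl, Units.val_one]
        have e3 : extZ (1 : (⊥ : Subgroup G) →* ℂˣ) (1 : G) = 1 := by
          unfold extZ
          rw [dif_pos (Subgroup.mem_bot.2 rfl)]
          simp
        rw [if_pos (Subgroup.mem_bot.2 rfl), if_pos hz, if_pos hz, e1, e2, e3]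
        norm_num
      · have hz0 : z ≠ 1 := by rw [hz1]; exact h1
        have e2 : extZ (sgn h1 h2) z = -1 := by
          unfold extZ
          rw [dif_pos hz]
          show ((if z = 1 then (1 : ℂˣ) else -1 : ℂˣ) : ℂ) = -1
          rw [if_neg hz0, Units.val_neg, Units.val_one]
        rw [if_neg (fun h => hz0 (Subgroup.mem_bot.1 h)), if_pos hz, if_pos hz, e1, e2]
        norm_num
    · have hz0 : z ∉ (⊥ : Subgroup G) := fun h => hz (by
        rw [Subgroup.mem_bot.1 h]
        exact Subgroup.one_mem _)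
      rw [if_neg hz0, if_neg hz, if_neg hz]
      norm_num
  unfold indFun
  rw [card_two h1 h2, Subgroup.card_bot, ← add_div, ← Finset.sum_add_distrib,
    Nat.cast_one, div_one, Finset.sum_congr rfl fun y _ => key _, Finset.sum_div]
  norm_num

end two

/-- The relation between the factors. -/
theorem quad_rel (σ : ℂ ≃+* ℂ) (N : Type) [Field N] [NumberField N] [IsGalois ℚ N]
    {g : N ≃ₐ[ℚ] N} (h1 : g ≠ 1) (h2 : g * g = 1) (a b c : ℂˣ)
    (ha : LinU {a} σ (IntermediateField.fixedField (⊥ : Subgroup (N ≃ₐ[ℚ] N))) N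
      (liftChar (⊥ : Subgroup (N ≃ₐ[ℚ] N)) 1))
    (hb : LinU {b} σ (IntermediateField.fixedField (Subgroup.zpowers g)) N
      (liftChar (Subgroup.zpowers g) 1))
    (hc : LinU {c} σ (IntermediateField.fixedField (Subgroup.zpowers g)) N
      (liftChar (Subgroup.zpowers g) (sgn h1 h2))) : a = b * c := by
  obtain ⟨φ, Θ, hφ⟩ := SFULL.exph ℚ N ∅
  obtain ⟨V, _, _, _, ρ, hρ⟩ := INDREP_thm (N ≃ₐ[ℚ] N) (⊥ : Subgroup (N ≃ₐ[ℚ] N)) 1
  obtain ⟨V', _, _, _, ρ', hρ'⟩ := INDREP_thm (N ≃ₐ[ℚ] N) (⊥ : Subgroup (N ≃ₐ[ℚ] N))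
    (twist σ 1)
  have hσ : ∀ g, ρ'.character g = σ (ρ.character g) := by
    intro g
    rw [hρ', hρ, IND.twist_indFun]
  have e1 := indU {a} σ ℚ N ∅ φ Θ V V' ρ ρ' 1 (fun _ => (⊥ : Subgroup (N ≃ₐ[ℚ] N)))
    (fun _ => 1) (fun _ => 1) hφ hσ (fun x => by
      rw [hρ]
      simp) (fun _ => {a}) (fun u hu => by
      rw [Fin.prod_univ_one, zpow_one]
      exact hu 0) (fun _ => ha)
  have e2 := indU {b * c} σ ℚ N ∅ φ Θ V V' ρ ρ' 2 (fun _ => Subgroup.zpowers g)
    ![1, sgn h1 h2] (fun _ => 1) hφ hσ (fun x => by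
      rw [hρ, Fin.sum_univ_two, ind_two h1 h2]
      simp) ![{b}, {c}] (fun u hu => by
      rw [Fin.prod_univ_two, zpow_one, zpow_one]
      have h3 : u 0 = b := hu 0
      have h4 : u 1 = c := hu 1
      rw [h3, h4]
      rfl) (fun i => by
      fin_cases i
      · exact hb
      · exact hc)
  exact at_uniq hφ e1 e2

theorem qe_two {G : Type} [Group G] (h : Nat.card G = 2) : IsQuasiElem G := by
  refine ⟨2, ⊥, Nat.prime_two, inferInstance, inferInstance, ?_, 1, ?_⟩
  · rw [Subgroup.card_bot]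
    norm_num
  · rw [Subgroup.index_bot, h]
    norm_num

/-- An element of order two of the Galois group of an extension of `E`. -/
theorem exists_two (E : Type) [Field E] [NumberField E] [IsGalois ℚ E] :
    ∃ (N : Type) (_ : Field N) (_ : NumberField N) (_ : IsGalois ℚ N) (_ : Algebra E N)
      (g : N ≃ₐ[ℚ] N), g ≠ 1 ∧ g * g = 1 ∧
        ∀ x : E, g (algebraMap E N x) = algebraMap E N x := by
  obtain ⟨q, N, _, _, aN, gN, ζ, κ, hq, hBq, hmq, hζ, hκ, htr⟩ := fieldM E 1 2 (by norm_num)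
  obtain ⟨h, hh, -⟩ := htr 0 (q - 1) (by
    have h1 : Nat.Coprime (q - 1) q := by
      have := (Nat.coprime_self_sub_right (show 1 ≤ q by omega)).2 (Nat.coprime_one_right q)
      exact this.symm
    exact h1)
  have hfin : IsOfFinOrder h := isOfFinOrder_of_finite h
  have hpow : ∀ n : ℕ, (h ^ n) ζ = ζ ^ ((q - 1) ^ n) := by
    intro n
    induction n with
    | zero => simp
    | succ n ih => rw [pow_succ, AlgEquiv.mul_apply, hh, map_pow, ih, ← pow_mul, pow_succ]
  -- the order is even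
  have heven : Even (orderOf h) := by
    have h1 : ζ ^ ((q - 1) ^ orderOf h) = ζ ^ 1 := by
      rw [← hpow, pow_orderOf_eq_one, pow_one]
      rfl
    have h2 := hζ.pow_inj
    by_contra hodd
    rw [Nat.not_even_iff_odd] at hodd
    have h3 : ζ ^ ((q - 1) ^ orderOf h) = ζ ^ (q - 1) := by
      rw [← pow_mod_orderOf ζ ((q - 1) ^ orderOf h), ← pow_mod_orderOf ζ (q - 1),
        ← hζ.eq_orderOf]
      refine congrArg (fun n => ζ ^ n) ?_
      have h4 : ((q - 1 : ℕ) : ZMod q) = -1 := by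
        rw [Nat.cast_sub hq.one_lt.le, ZMod.natCast_self, Nat.cast_one, zero_sub]
      exact (ZMod.natCast_eq_natCast_iff _ _ _).1 (by rw [Nat.cast_pow, h4, hodd.neg_one_pow])
    have h5 : ζ ^ (q - 1) = ζ ^ 1 := h3.symm.trans h1
    have h6 := hζ.pow_inj (show q - 1 < q by omega) (show 1 < q from hq.one_lt) h5
    omega
  obtain ⟨k, hk⟩ := heven
  have hpos : 0 < orderOf h := orderOf_pos h
  let g₀ : N ≃ₐ[E] N := h ^ k
  have hg2 : g₀ * g₀ = 1 := by
    show h ^ k * h ^ k = 1
    rw [← pow_add, ← hk, pow_orderOf_eq_one]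
  have hg1 : g₀ ≠ 1 := by
    intro h1
    have h2 : orderOf h ∣ k := orderOf_dvd_of_pow_eq_one h1
    have h3 := Nat.le_of_dvd (by omega) h2
    omega
  refine ⟨N, inferInstance, inferInstance, gN, aN, g₀.restrictScalars ℚ, ?_, ?_, ?_⟩
  · intro h1
    refine hg1 (AlgEquiv.ext fun x => ?_)
    exact DFunLike.congr_fun h1 x
  · refine AlgEquiv.ext fun x => ?_
    exact DFunLike.congr_fun hg2 x
  · intro x
    exact g₀.commutes x

end ASY

end StarkC
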