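import Pool.Agent.ASY.DESC
import Pool.Agent.ASY.BCXA
import Pool.Agent.EXSG.SIG2

/-!
# The sequence and the asymptotic form of Stark's conjecture
-/

set_option autoImplicit false

open NumberField IsDedekindDomain Filter
open scoped TensorProduct Classical

namespace StarkC

namespace ASY

open StarkC.EXS

/-- The products `u₀ u₁ u₂⁻¹ u₃⁻¹ u₄` of elements of `U` are in `W`. -/
def Word (U W : Set ℂˣ) : Prop := ∀ u : Fin 5 → ℂˣ, (∀ i, u i ∈ U) → ∏ i, u i ^ wts i ∈ W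

/-- An extension with a faithful linear character. -/
structure ExtC where
  K : Type
  L : Type
  [fK : Field K]
  [nK : NumberField K]
  [fL : Field L]
  [nL : NumberField L]
  [alg : Algebra K L]
  [gal : IsGalois K L]
  ψ : (L ≃ₐ[K] L) →* ℂˣ
  inj : Function.Injective ψ

attribute [instance] ExtC.fK ExtC.nK ExtC.fL ExtC.nL ExtC.alg ExtC.gal

/-- The five extensions of a pair. -/
theorem outA (hG : Stmt_GCE) (hI : Stmt_IDN5) (hF : Stmt_FLDE)
    (l : ℕ) (ε : ℝ) (hl : l.Prime) (hlo : Odd l) (hε : 0 < ε) (hlε : 1 ≤ ε * l)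
    (T : Finset ℕ) (E : Type) [Field E] [NumberField E]
    (hsp : ((Polynomial.X ^ l - Polynomial.C 2 : Polynomial ℚ).map (algebraMap ℚ E)).Splits)
    (N : Type) [Field N] [NumberField N] [IsGalois ℚ N] [Algebra E N]
    (H : Subgroup (N ≃ₐ[ℚ] N)) (ψ : H →* ℂˣ) (hty : TyQ T E H ψ) (B : ℕ) :
    ∃ X : Fin 5 → ExtC,
      (∀ r, PairQ T E ε (X r).K (X r).L ∧ B ≤ Module.finrank ℚ (X r).K) ∧
      ∀ (U W : Set ℂˣ) (σ : ℂ ≃+* ℂ), Word U W → (∀ r, StarkW.LinIn U σ (X r).ψ) →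
        LinU W σ (IntermediateField.fixedField H) N (liftChar H ψ) := by
  have g := hG N T E H ψ hty.2
  have hq := qacts_sub (E := E) H hty.1
  obtain ⟨N', _, _, aN, aF, aE, st, stE, gQ, gF, A, ψA, hψA, hdeg, hgood, hid⟩ :=
    bcxA fieldM hI T E (IntermediateField.fixedField H) N (liftChar H ψ) g B
  have key : ∀ r : Fin 5, ∃ X : ExtC, (PairQ T E ε X.K X.L ∧ B ≤ Module.finrank ℚ X.K) ∧
      ∀ (U : Set ℂˣ) (σ : ℂ ≃+* ℂ), StarkW.LinIn U σ X.ψ →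
        LinU U σ (IntermediateField.fixedField (A r)) N' (liftChar (A r) (ψA r)) := by
    intro r
    obtain ⟨L, _, _, _, _, _, _, ψ', hinj, hψ', hp⟩ := hF l ε hl hlo hε hlε T E hsp
      (IntermediateField.fixedField (A r)) N' (liftChar (A r) (ψA r)) (hgood r)
    refine ⟨⟨IntermediateField.fixedField (A r), L, ψ', hinj⟩, ⟨⟨hp, qext_of (qacts_base hq (A r))⟩,
      hdeg r⟩, fun U σ hf => ?_⟩
    exact upU U σ (IntermediateField.fixedField (A r)) L N' ψ'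
      ((linIn_iff U σ ψ').1 hf) (liftChar (A r) (ψA r)) hψ'
  choose X hX1 hX2 using key
  refine ⟨X, hX1, fun U W σ hW hf => ?_⟩
  exact base_linearU W U σ (IntermediateField.fixedField H) N N' (liftChar H ψ) A ψA wts hψA hid
    hW fun r => hX2 r U σ (hf r)

/-- The assertion up to a factor in `W` for a pair. -/
def GoodA {T : Finset ℕ} {E : Type} [Field E] {M : LevE E} (q : Pr T E M) (W : Set ℂˣ)
    (σ : ℂ ≃+* ℂ) : Prop :=
  LinU W σ (IntermediateField.fixedField q.1.1) M.N (liftChar q.1.1 q.1.2)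

/-- Five extensions which imply the assertion `P`. -/
def ConclA (T : Finset ℕ) (E : Type) [Field E] (ε : ℝ) (B : ℕ)
    (P : Set ℂˣ → (ℂ ≃+* ℂ) → Prop) : Prop :=
  ∃ X : Fin 5 → ExtC,
    (∀ r, PairQ T E ε (X r).K (X r).L ∧ B ≤ Module.finrank ℚ (X r).K) ∧
      ∀ (U W : Set ℂˣ) (σ : ℂ ≃+* ℂ), Word U W →
        (∀ r, StarkW.LinIn U σ (X r).ψ) → P W σ

variable {N : ℕ → Type} [∀ k, Field (N k)] [∀ k, NumberField (N k)] [∀ k, IsGalois ℚ (N k)]

/-- The data of the construction. -/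
structure DatA (N : ℕ → Type) [∀ k, Field (N k)] [∀ k, NumberField (N k)]
    [∀ k, IsGalois ℚ (N k)] (T : Finset ℕ) (E : Type) [Field E] [NumberField E] (ε : ℝ) where
  M : Task N → LevE E
  dec : ∀ t : Task N, DecAt T E t (M t)
  out : ∀ (t : Task N) (p : Pr T E (M t)) (B : ℕ), ConclA T E ε B (GoodA p)
  dft : ∀ B : ℕ, ConclA T E ε B fun _ _ => True

theorem exists_datA (hLE : Stmt_LEVE) (hD : DecQ) (hG : Stmt_GCE) (hI : Stmt_IDN5)
    (hF : Stmt_FLDE) (T : Finset ℕ) (E₀ : Type) [Field E₀] [NumberField E₀] (ε : ℝ)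
    (hε : 0 < ε) :
    ∃ (E : Type) (_ : Field E) (_ : NumberField E) (_ : Algebra E₀ E),
      Nonempty (DatA N T E ε) := by
  obtain ⟨c, hc⟩ := exists_nat_one_div_lt hε
  obtain ⟨l, hlge, hlp⟩ := Nat.exists_infinite_primes (c + 3)
  obtain ⟨E, _, _, aE, _, hsp, hi⟩ := hLE E₀ l hlp.pos
  have hlo : Odd l := hlp.odd_of_ne_two (by omega)
  have hlε : 1 ≤ ε * l := by
    have h2 : ((c : ℝ) + 1) ≤ l := by
      have : c + 1 ≤ l := by omega
      exact_mod_cast this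
    have h3 : 1 < ε * ((c : ℝ) + 1) := by
      rwa [div_lt_iff₀ (by positivity)] at hc
    nlinarith
  have h1 : ∀ t : Task N, ∃ M : LevE E, DecAt T E t M := by
    intro t
    obtain ⟨N', _, _, aN, aE, _, h⟩ := hD T E hi (N t.1) t.2.1 t.2.2
    exact ⟨⟨N'⟩, aN, h⟩
  choose M hM using h1
  refine ⟨E, inferInstance, inferInstance, aE, ⟨⟨M, hM, fun t p B =>
    outA hG hI hF l ε hlp hlo hε hlε T E hsp (M t).N p.1.1 p.1.2 p.2 B, fun B => ?_⟩⟩⟩
  obtain ⟨X, hX, -⟩ := outA hG hI hF l ε hlp hlo hε hlε T E hsp E ⊥ 1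
    ⟨qe_bot _, tyAB_default _ E hi⟩ B
  exact ⟨X, hX, fun _ _ _ _ _ => trivial⟩

/-- The pairs of a stage and a default. -/
def FmA (tk : ℕ → Task N) {T : Finset ℕ} {E : Type} [Field E] [NumberField E] {ε : ℝ}
    (D : DatA N T E ε) (s : ℕ) : Type :=
  Option (Σ i : Fin (s + 1), Pr T E (D.M (tk i)))

theorem fmA_finite (tk : ℕ → Task N) {T : Finset ℕ} {E : Type} [Field E] [NumberField E] {ε : ℝ}
    (D : DatA N T E ε) (s : ℕ) : Finite (FmA tk D s) := by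
  have h1 : ∀ i : Fin (s + 1), Finite (Pr T E (D.M (tk i))) :=
    fun i => pr_finite _ _ _
  unfold FmA
  infer_instance

theorem fmA_nonempty (tk : ℕ → Task N) {T : Finset ℕ} {E : Type} [Field E] [NumberField E] {ε : ℝ}
    (D : DatA N T E ε) (s : ℕ) : Nonempty (FmA tk D s) := ⟨none⟩

/-- The assertion up to a factor in `W` at `σ` for a member of the family. -/
def FmGoodA (tk : ℕ → Task N) {T : Finset ℕ} {E : Type} [Field E] [NumberField E] {ε : ℝ}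
    (D : DatA N T E ε) (s : ℕ) (x : FmA tk D s) (W : Set ℂˣ) (σ : ℂ ≃+* ℂ) :
    Prop :=
  ∀ q : Σ i : Fin (s + 1), Pr T E (D.M (tk i)), x = some q → GoodA q.2 W σ

theorem fmA_out (tk : ℕ → Task N) {T : Finset ℕ} {E : Type} [Field E] [NumberField E] {ε : ℝ}
    (D : DatA N T E ε) (s : ℕ) (x : FmA tk D s) (B : ℕ) :
    ConclA T E ε B (FmGoodA tk D s x) := by
  match x with
  | none =>
    obtain ⟨X, hX, -⟩ := D.dft B
    exact ⟨X, hX, fun _ _ _ _ _ p hp => absurd hp (Option.some_ne_none p).symm⟩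
  | some p =>
    obtain ⟨X, hX, h1⟩ := D.out (tk p.1) p.2 B
    refine ⟨X, hX, fun U W σ hW hf q hq => ?_⟩
    have e := Option.some.inj hq
    subst e
    exact h1 U W σ hW hf

/-- The sequence of extensions. -/
theorem seqA {T : Finset ℕ} {E : Type} [Field E] [NumberField E] {ε : ℝ} (D : DatA N T E ε)
    (hC : Stmt_COMB5) (F g : ℕ → ℕ) (hg : Tendsto g atTop atTop) :
    ∃ Y : ℕ → ExtC,
      (∀ j, F j ≤ Module.finrank ℚ (Y j).K ∧ PairQ T E ε (Y j).K (Y j).L) ∧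
      ∀ J : Set ℕ, (∃ᶠ a in atTop, ∀ j, a ≤ j → j ≤ a + g a → j ∈ J) → ∀ σ : ℂ ≃+* ℂ,
        ∀ U W : Set ℂˣ, Word U W →
          (∀ᶠ j in atTop, j ∈ J → StarkW.LinIn U σ (Y j).ψ) →
          ∀ (t : Task N) (q : Pr T E (D.M t)), GoodA q W σ := by
  have hct := task_countable N
  have hne := task_nonempty N
  obtain ⟨tk, htk⟩ := exists_surjective_nat (Task N)
  have hfin : ∀ s, Finite (FmA tk D s) := fun s => fmA_finite tk D s
  have hnon : ∀ s, Nonempty (FmA tk D s) := fun s => fmA_nonempty tk D s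
  let C : ℕ → ℕ := fun s => Nat.card (FmA tk D s)
  have hCpos : ∀ s, 0 < C s := fun s => Nat.card_pos
  let e : ∀ s, FmA tk D s ≃ Fin (C s) := fun s => Finite.equivFin _
  obtain ⟨lev, hlev, hJ⟩ := hC C hCpos g hg
  let x : ∀ m, FmA tk D (lev m) := fun m =>
    (e (lev m)).symm ⟨m % C (lev m), Nat.mod_lt _ (hCpos _)⟩
  let B : ℕ → ℕ := fun m => ∑ r ∈ Finset.range 5, F (5 * m + r)
  have hX : ∀ m, ConclA T E ε (B m) (FmGoodA tk D (lev m) (x m)) :=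
    fun m => fmA_out tk D (lev m) (x m) (B m)
  choose X hX1 hX2 using hX
  refine ⟨fun j => X (j / 5) ⟨j % 5, Nat.mod_lt _ (by norm_num)⟩, fun j => ⟨?_, ?_⟩, ?_⟩
  · refine le_trans ?_ (hX1 (j / 5) _).2
    have h1 : F (5 * (j / 5) + j % 5) ≤ B (j / 5) :=
      Finset.single_le_sum (f := fun r => F (5 * (j / 5) + r)) (fun _ _ => Nat.zero_le _)
        (Finset.mem_range.2 (Nat.mod_lt _ (by norm_num)))
    rwa [Nat.div_add_mod] at h1
  · exact (hX1 (j / 5) _).1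
  · intro J hJa σ U W hW hf t q
    obtain ⟨b, hb⟩ := eventually_atTop.1 hf
    obtain ⟨i₀, rfl⟩ := htk t
    have hJ' : ∃ᶠ a in atTop, ∀ j, a ≤ j → j ≤ a + g a → j ∈ J ∩ Set.Ici b :=
      (hJa.and_eventually (eventually_ge_atTop b)).mono fun a ha j h1 h2 =>
        ⟨ha.1 j h1 h2, le_trans ha.2 h1⟩
    obtain ⟨s, hs, hs2⟩ := hJ (J ∩ Set.Ici b) hJ' i₀
    let y : FmA tk D s := some ⟨⟨i₀, by omega⟩, q⟩
    obtain ⟨m, hm, hmi, hmJ⟩ := hs2 (e s y).1 (e s y).2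
    subst hm
    have hxy : x m = y := by
      have h3 : (⟨m % C (lev m), Nat.mod_lt _ (hCpos _)⟩ : Fin (C (lev m))) = e (lev m) y :=
        Fin.ext hmi
      show (e (lev m)).symm _ = y
      rw [h3, Equiv.symm_apply_apply]
    have h4 : FmGoodA tk D (lev m) (x m) W σ := by
      refine hX2 m U W σ hW fun r => ?_
      have h5 : (fun E : ExtC => StarkW.LinIn U σ E.ψ)
          (X ((5 * m + (r : ℕ)) / 5) ⟨(5 * m + (r : ℕ)) % 5, Nat.mod_lt _ (by norm_num)⟩) :=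
        hb (5 * m + r) (hmJ r r.2).2 (hmJ r r.2).1
      have h6 : (5 * m + (r : ℕ)) / 5 = m := by omega
      have h7 : (5 * m + (r : ℕ)) % 5 = r := by omega
      have h8 : X ((5 * m + (r : ℕ)) / 5) ⟨(5 * m + (r : ℕ)) % 5, Nat.mod_lt _ (by norm_num)⟩ =
          X m r := by
        have h9 : (⟨(5 * m + (r : ℕ)) % 5, Nat.mod_lt _ (by norm_num)⟩ : Fin 5) = r :=
          Fin.ext h7
        rw [h9, h6]
      rw [h8] at h5
      exact h5
    exact h4 ⟨⟨i₀, by omega⟩, q⟩ hxy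

/-! ### Group topologies -/

theorem word_exists (τ : GroupTopology ℂˣ) (W : Set ℂˣ)
    (hW : W ∈ @nhds ℂˣ τ.toTopologicalSpace 1) :
    ∃ U ∈ @nhds ℂˣ τ.toTopologicalSpace 1, Word U W := by
  let _ : TopologicalSpace ℂˣ := τ.toTopologicalSpace
  have _ : IsTopologicalGroup ℂˣ := τ.toIsTopologicalGroup
  have hcont : Continuous fun u : Fin 5 → ℂˣ => ∏ i, u i ^ wts i :=
    continuous_finsetProd _ fun i _ => (continuous_apply i).zpow (wts i)
  have h1 : (fun u : Fin 5 → ℂˣ => ∏ i, u i ^ wts i) ⁻¹' W ∈ nhds (fun _ : Fin 5 => (1 : ℂˣ)) := by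
    refine hcont.continuousAt.preimage_mem_nhds ?_
    simpa using hW
  rw [nhds_pi, Filter.mem_pi'] at h1
  obtain ⟨I, t, ht, hsub⟩ := h1
  refine ⟨⋂ i, t i, Filter.iInter_mem.2 ht, fun u hu => hsub fun i _ => ?_⟩
  exact Set.mem_iInter.1 (hu i) i

theorem one_mem_of (τ : GroupTopology ℂˣ) {U : Set ℂˣ}
    (hU : U ∈ @nhds ℂˣ τ.toTopologicalSpace 1) : (1 : ℂˣ) ∈ U := by
  let _ : TopologicalSpace ℂˣ := τ.toTopologicalSpace
  exact mem_of_mem_nhds hU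

/-- The closure of `1` as a subgroup. -/
def clSub (τ : GroupTopology ℂˣ) : Subgroup ℂˣ :=
  @Subgroup.topologicalClosure ℂˣ τ.toTopologicalSpace _ τ.toIsTopologicalGroup ⊥

theorem clSub_coe (τ : GroupTopology ℂˣ) : (clSub τ : Set ℂˣ) = StarkW.clOne τ := rfl

theorem clOne_eq (τ : GroupTopology ℂˣ) :
    StarkW.clOne τ = ⋂₀ {U | U ∈ @nhds ℂˣ τ.toTopologicalSpace 1} := by
  let _ : TopologicalSpace ℂˣ := τ.toTopologicalSpace
  have _ : IsTopologicalGroup ℂˣ := τ.toIsTopologicalGroup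
  ext x
  rw [Set.mem_sInter]
  show x ∈ closure {(1 : ℂˣ)} ↔ ∀ U ∈ nhds (1 : ℂˣ), x ∈ U
  rw [← specializes_iff_mem_closure, specializes_comm, specializes_iff_pure]
  exact Filter.pure_le_iff

theorem clOne_subset (τ : GroupTopology ℂˣ) {U : Set ℂˣ}
    (hU : U ∈ @nhds ℂˣ τ.toTopologicalSpace 1) : StarkW.clOne τ ⊆ U := by
  rw [clOne_eq]
  exact Set.sInter_subset_of_mem hU

theorem conjQU_of (V : Subgroup ℂˣ) {σ : ℂ ≃+* ℂ} {T : Finset ℕ} {E : Type} [Field E]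
    [NumberField E] {ε : ℝ} (D : DatA N T E ε)
    (hcof : ∀ (M : Type) [Field M] [NumberField M], ∃ k, Nonempty (M →+* N k))
    (hsol : ∀ (t : Task N) (q : Pr T E (D.M t)), GoodA q (V : Set ℂˣ) σ)
    (h3 : StarkW.OddIn (V : Set ℂˣ) σ) : ConjQU (V : Set ℂˣ) σ := by
  intro L _ _ _ S φ Θ W W' _ _ _ _ _ _ ρ ρ' hφ hσ
  obtain ⟨k, ⟨ι⟩⟩ := hcof L
  let aLN : Algebra L (N k) := ι.toAlgebra
  have h1 : IsMonComb (fun g : N k ≃ₐ[ℚ] N k => ρ.character (AlgEquiv.restrictNormalHom L g)) :=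
    SFULL.bra (N k ≃ₐ[ℚ] N k) W (ρ.comp (AlgEquiv.restrictNormalHom L))
  let t : Task N := ⟨k, ⟨_, h1⟩⟩
  obtain ⟨aNM, hdec⟩ := D.dec t
  let aLM : Algebra L (D.M t).N :=
    ((algebraMap (N k) (D.M t).N).comp (algebraMap L (N k))).toAlgebra
  have hst : IsScalarTower ℚ L (D.M t).N :=
    IsScalarTower.of_algebraMap_eq' (Subsingleton.elim _ _)
  obtain ⟨m, H, ψ, n, hP, hF⟩ := CMB.of_mem_GS hdec
  refine of_combU (V : Set ℂˣ) σ (N := (D.M t).N) S φ Θ W W' ρ ρ' hφ hσ H ψ n ?_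
    (fun _ => (V : Set ℂˣ)) (fun u hu => word_mem V n u hu) ?_
  · intro g
    rw [← hF g]
    show _ = ρ.character (AlgEquiv.restrictNormalHom L
      (AlgEquiv.restrictNormalHom (N k) g : N k ≃ₐ[ℚ] N k))
    rw [SSPANZ.res_res (L := L) (N := N k) (N' := (D.M t).N) (fun x => rfl)]
  · intro i
    rcases hP i with h | h
    · exact hsol t ⟨⟨H i, ψ i⟩, h⟩
    · refine ofDU (V : Set ℂˣ) σ h3 _ (D.M t).N _
        (SMAIN.totallyReal (H i) fun c hc => (h c hc).1) ?_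
      intro Φ c hc
      obtain ⟨h4, h5⟩ := h _ ⟨Φ, GOOD.isConj_symm (H i) c Φ hc⟩
      exact h5

/-- The asymptotic form of Stark's conjecture along one sparse sequence of cyclic extensions. -/
theorem main (T : Finset ℕ) (E₀ : Type) [Field E₀] [NumberField E₀] (ε : ℝ) (hε : 0 < ε)
    (F g : ℕ → ℕ) (hg : Tendsto g atTop atTop) :
    ∃ Y : ℕ → ExtC,
      (∀ j, F j ≤ Module.finrank ℚ (Y j).K ∧ StarkW.QExt E₀ (Y j).K ∧
        (StarkW.UnrPair T (Y j).K (Y j).L ∨ StarkW.PowPair E₀ ε (Y j).K (Y j).L)) ∧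
      ∀ (τ : GroupTopology ℂˣ) (J : Set ℕ),
        (∃ᶠ a in atTop, ∀ j, a ≤ j → j ≤ a + g a → j ∈ J) → ∀ σ : ℂ ≃+* ℂ,
        (StarkW.ConjIn (StarkW.clOne τ) σ ↔
          StarkW.LimOne τ J σ (fun j => (Y j).K) (fun j => (Y j).L) (fun j => (Y j).ψ) ∧
            StarkW.OddIn (StarkW.clOne τ) σ) := by
  obtain ⟨N, _, _, hgal, hcof⟩ := SSQ.COF_thm
  obtain ⟨E, _, _, aE, ⟨D⟩⟩ := exists_datA (N := N) LEVE_thm (decQ DECE_thm) GCE_thm IDN5_thm
    FLDE_thm T E₀ ε hε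
  obtain ⟨Y, hY1, hY2⟩ := seqA D COMB5_thm F g hg
  refine ⟨Y, fun j => ?_, fun τ J hJ σ => ⟨fun h => ⟨fun U hU => ?_, ?_⟩, ?_⟩⟩
  · have h1 := pairQ_mono (Finset.Subset.refl T) (algebraMap E₀ E) (le_refl ε) (hY1 j).2
    exact ⟨(hY1 j).1, h1.2, h1.1⟩
  · refine Eventually.of_forall fun j _ Θ hΘ => ?_
    obtain ⟨f, f', hf, hf', u, hu, hE⟩ := linIn_of_conjIn h (Y j).K (Y j).L (Y j).ψ Θ hΘ
    exact ⟨f, f', hf, hf', u, clOne_subset τ hU hu, hE⟩
  · exact fun K L _ _ _ _ _ _ ψ _ _ => linIn_of_conjIn h K L ψ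
  · rintro ⟨hA, hD⟩
    rw [← clSub_coe] at hD ⊢
    refine conjIn_of_conjQU (clSub τ) (conjQU_of (clSub τ) D hcof (fun t q => ?_) hD)
    have hlin : ∀ W ∈ @nhds ℂˣ τ.toTopologicalSpace 1, GoodA q W σ := by
      intro W hW
      obtain ⟨U, hU, hUW⟩ := word_exists τ W hW
      exact hY2 J hJ σ U W hUW (hA U hU) t q
    intro S φ Θ hφ
    rw [clSub_coe, clOne_eq]
    refine atU_inter _ ⟨Set.univ, Filter.univ_mem⟩ (fun U hU =>
      one_mem_of τ hU)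
      fun W hW => hlin W hW S φ Θ hφ

end ASY

end StarkC
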