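import Pool.Agent.ASY.SEQA
import Pool.Agent.ASY.QUAD
import Pool.Agent.ASY.COMBA
import Pool.Agent.ASY.PDefsB

/-!
# The sequence and slowly varying factors
-/

set_option autoImplicit false

open NumberField IsDedekindDomain Filter
open scoped TensorProduct Classical

namespace StarkC

namespace ASY

open StarkC.EXS

/-- The assertion for a linear character from a base change with integral weights. -/
theorem base_linearV (W : Set ℂˣ) (U : Fin 5 → Set ℂˣ) (σ : ℂ ≃+* ℂ) (F N N' : Type) [Field F]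
    [NumberField F]
    [Field N] [NumberField N] [Field N'] [NumberField N'] [Algebra F N] [Algebra N N']
    [Algebra F N'] [IsScalarTower F N N'] [IsGalois F N] [IsGalois F N'] (ψ : (N ≃ₐ[F] N) →* ℂˣ)
    (A : Fin 5 → Subgroup (N' ≃ₐ[F] N')) (ψA : ∀ r, A r →* ℂˣ) (n : Fin 5 → ℤ)
    (hψA : ∀ r (h : A r) (g : N ≃ₐ[F] N),
      (∀ z : N, (h : N' ≃ₐ[F] N') (algebraMap N N' z) = algebraMap N N' (g z)) →
      ψA r h = ψ g)
    (hid : ∀ g : N' ≃ₐ[F] N', ∑ r, (n r : ℂ) * indFun (A r) (fun _ => 1) g = 1)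
    (hW : ∀ u : Fin 5 → ℂˣ, (∀ i, u i ∈ U i) → ∏ i, u i ^ n i ∈ W)
    (hst : ∀ r, LinU (U r) σ (IntermediateField.fixedField (A r)) N'
      (liftChar (A r) (ψA r))) :
    LinU W σ F N ψ := by
  intro S φ Θ hφ
  refine of_combU W σ (N := N') S φ Θ ℂ ℂ (linRep ψ)
    (linRep (twist σ ψ)) hφ ?_ A ψA n ?_ U hW hst
  · intro g
    rw [MAIN.linRep_character, MAIN.linRep_character]
    rfl
  · intro g
    rw [MAIN.linRep_character]
    have h1 : ∀ r, (n r : ℂ) * indFun (A r) (extZ (ψA r)) g =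
        ((ψ (AlgEquiv.restrictNormalHom N g) : ℂˣ) : ℂ) *
          ((n r : ℂ) * indFun (A r) (fun _ => 1) g) := by
      intro r
      rw [SSQSBCG.ind_eq ψ (A r) (ψA r) (hψA r) g]
      ring
    rw [Finset.sum_congr rfl fun r _ => h1 r, ← Finset.mul_sum, hid g, mul_one]

/-- A field, a subgroup of its Galois group and a linear character of type (A) or (B). -/
structure FormC (T : Finset ℕ) (E : Type) [Field E] where
  N : Type
  [f : Field N]
  [nf : NumberField N]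
  [gal : IsGalois ℚ N]
  [alg : Algebra E N]
  H : Subgroup (N ≃ₐ[ℚ] N)
  ψ : H →* ℂˣ
  ty : TyQ T E H ψ

attribute [instance] FormC.f FormC.nf FormC.gal FormC.alg

/-- The assertion up to a factor in `W`. -/
def FormC.Lin {T : Finset ℕ} {E : Type} [Field E] (x : FormC T E) (W : Set ℂˣ) (σ : ℂ ≃+* ℂ) :
    Prop :=
  LinU W σ (IntermediateField.fixedField x.H) x.N (liftChar x.H x.ψ)

/-- The five extensions of a form. -/
def OutB (T : Finset ℕ) (E : Type) [Field E] (ε : ℝ) (x : FormC T E) (B : ℕ) : Prop :=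
  ∃ X : Fin 5 → ExtC,
    (∀ r, PairQ T E ε (X r).K (X r).L ∧ B ≤ Module.finrank ℚ (X r).K) ∧
    ∀ (u : Fin 5 → ℂˣ) (σ : ℂ ≃+* ℂ), (∀ r, StarkW.LinIn {u r} σ (X r).ψ) →
      x.Lin {∏ r, u r ^ wts r} σ

theorem outB (hG : Stmt_GCE) (hI : Stmt_IDN5) (hF : Stmt_FLDE)
    (l : ℕ) (ε : ℝ) (hl : l.Prime) (hlo : Odd l) (hε : 0 < ε) (hlε : 1 ≤ ε * l)
    (T : Finset ℕ) (E : Type) [Field E] [NumberField E]
    (hsp : ((Polynomial.X ^ l - Polynomial.C 2 : Polynomial ℚ).map (algebraMap ℚ E)).Splits)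
    (x : FormC T E) (B : ℕ) : OutB T E ε x B := by
  have g := hG x.N T E x.H x.ψ x.ty.2
  have hq := qacts_sub (E := E) x.H x.ty.1
  obtain ⟨N', _, _, aN, aF, aE, st, stE, gQ, gF, A, ψA, hψA, hdeg, hgood, hid⟩ :=
    bcxA fieldM hI T E (IntermediateField.fixedField x.H) x.N (liftChar x.H x.ψ) g B
  have key : ∀ r : Fin 5, ∃ X : ExtC, (PairQ T E ε X.K X.L ∧ B ≤ Module.finrank ℚ X.K) ∧
      ∀ (U : Set ℂˣ) (σ : ℂ ≃+* ℂ), StarkW.LinIn U σ X.ψ →
        LinU U σ (IntermediateField.fixedField (A r)) N' (liftChar (A r) (ψA r)) := by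
    intro r
    obtain ⟨L, _, _, _, _, _, _, ψ', hinj, hψ', hp⟩ := hF l ε hl hlo hε hlε T E hsp
      (IntermediateField.fixedField (A r)) N' (liftChar (A r) (ψA r)) (hgood r)
    refine ⟨⟨IntermediateField.fixedField (A r), L, ψ', hinj⟩,
      ⟨⟨hp, qext_of (qacts_base hq (A r))⟩, hdeg r⟩, fun U σ hf => ?_⟩
    exact upU U σ (IntermediateField.fixedField (A r)) L N' ψ'
      ((linIn_iff U σ ψ').1 hf) (liftChar (A r) (ψA r)) hψ'
  choose X hX1 hX2 using key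
  refine ⟨X, hX1, fun u σ hf => ?_⟩
  exact base_linearV {∏ r, u r ^ wts r} (fun r => {u r}) σ (IntermediateField.fixedField x.H) x.N
    N' (liftChar x.H x.ψ) A ψA wts hψA hid
    (fun v hv => by
      have h1 : v = u := funext fun i => hv i
      rw [h1]
      rfl) fun r => hX2 r {u r} σ (hf r)

/-- The product of the factors of a window. -/
def wordB (u : ℕ → ℂˣ) (m : ℕ) : ℂˣ := ∏ r : Fin 5, u (5 * m + r) ^ wts r

/-- The forms `0`, ..., `b - 1` have consecutive windows in `J`. -/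
def SeqP {T : Finset ℕ} {E : Type} [Field E] {I : Type} (idx : ℕ → I) (form : I → FormC T E)
    (Y : ℕ → ExtC) (J : Set ℕ) : Prop :=
  ∀ b : ℕ, ∃ m₀, b ≤ m₀ ∧ (∀ j, 5 * m₀ ≤ j → j < 5 * (m₀ + b) → j ∈ J) ∧
    ∀ k < b, ∀ (u : ℕ → ℂˣ) (σ : ℂ ≃+* ℂ),
      (∀ r < 5, StarkW.LinIn {u (5 * (m₀ + k) + r)} σ (Y (5 * (m₀ + k) + r)).ψ) →
      (form (idx k)).Lin {wordB u (m₀ + k)} σ

theorem seqB {T : Finset ℕ} {E : Type} [Field E] {ε : ℝ} {I : Type} (idx : ℕ → I)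
    (form : I → FormC T E) (hout : ∀ (x : FormC T E) (B : ℕ), OutB T E ε x B)
    (F g : ℕ → ℕ) (hg : Tendsto g atTop atTop) :
    ∃ Y : ℕ → ExtC,
      (∀ j, F j ≤ Module.finrank ℚ (Y j).K ∧ PairQ T E ε (Y j).K (Y j).L) ∧
      ∀ J : Set ℕ, (∃ᶠ a in atTop, ∀ j, a ≤ j → j ≤ a + g a → j ∈ J) → SeqP idx form Y J := by
  obtain ⟨lev, hJ⟩ := combA g hg
  let x : ℕ → FormC T E := fun m => form (idx (m % (lev m + 1)))
  let B : ℕ → ℕ := fun m => ∑ r ∈ Finset.range 5, F (5 * m + r)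
  have hX : ∀ m, OutB T E ε (x m) (B m) := fun m => hout (x m) (B m)
  choose X hX1 hX2 using hX
  refine ⟨fun j => X (j / 5) ⟨j % 5, Nat.mod_lt _ (by norm_num)⟩, fun j => ⟨?_, ?_⟩, ?_⟩
  · refine le_trans ?_ (hX1 (j / 5) _).2
    have h1 : F (5 * (j / 5) + j % 5) ≤ B (j / 5) :=
      Finset.single_le_sum (f := fun r => F (5 * (j / 5) + r)) (fun _ _ => Nat.zero_le _)
        (Finset.mem_range.2 (Nat.mod_lt _ (by norm_num)))
    rwa [Nat.div_add_mod] at h1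
  · exact (hX1 (j / 5) _).1
  · intro J hJa b
    obtain ⟨s, m₀, hs, hm, hmod, hlev, hblk⟩ := hJ J hJa b
    refine ⟨m₀, hm, fun j h1 h2 => hblk j h1 (by omega), fun k hk u σ hf => ?_⟩
    have hxk : x (m₀ + k) = form (idx k) := by
      show form (idx ((m₀ + k) % (lev (m₀ + k) + 1))) = form (idx k)
      rw [hlev k (by omega), Nat.add_mod, hmod, zero_add, Nat.mod_mod,
        Nat.mod_eq_of_lt (show k < s + 1 by omega)]
    rw [← hxk]
    refine hX2 (m₀ + k) (fun r => u (5 * (m₀ + k) + r)) σ fun r => ?_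
    have h5 := hf r r.2
    have h6 : (5 * (m₀ + k) + (r : ℕ)) / 5 = m₀ + k := by omega
    have h7 : (5 * (m₀ + k) + (r : ℕ)) % 5 = r := by omega
    have h8 : X ((5 * (m₀ + k) + (r : ℕ)) / 5)
        ⟨(5 * (m₀ + k) + (r : ℕ)) % 5, Nat.mod_lt _ (by norm_num)⟩ = X (m₀ + k) r := by
      have h9 : (⟨(5 * (m₀ + k) + (r : ℕ)) % 5, Nat.mod_lt _ (by norm_num)⟩ : Fin 5) = r :=
        Fin.ext h7
      rw [h9, h6]
    have h10 : (fun E : ExtC => StarkW.LinIn {u (5 * (m₀ + k) + r)} σ E.ψ)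
        (X ((5 * (m₀ + k) + (r : ℕ)) / 5)
          ⟨(5 * (m₀ + k) + (r : ℕ)) % 5, Nat.mod_lt _ (by norm_num)⟩) := h5
    rw [h8] at h10
    exact h10

/-! ### Slow variation -/

section slow

variable (τ : GroupTopology ℂˣ)

theorem mul_exists (W : Set ℂˣ) (hW : W ∈ @nhds ℂˣ τ.toTopologicalSpace 1) :
    ∃ U ∈ @nhds ℂˣ τ.toTopologicalSpace 1, ∀ x ∈ U, ∀ y ∈ U, x * y ∈ W := by
  let _ : TopologicalSpace ℂˣ := τ.toTopologicalSpace
  have _ : IsTopologicalGroup ℂˣ := τ.toIsTopologicalGroup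
  obtain ⟨V, hV1, hV2, hV3⟩ := exists_open_nhds_one_mul_subset hW
  exact ⟨V, hV1.mem_nhds hV2, fun x hx y hy => hV3 (Set.mul_mem_mul hx hy)⟩

variable {τ} {J : Set ℕ} {u : ℕ → ℂˣ}
  (hslow : ∀ U ∈ @nhds ℂˣ τ.toTopologicalSpace 1, ∀ᶠ j in atTop,
    j ∈ J → j + 1 ∈ J → u (j + 1) / u j ∈ U)

include hslow in
theorem slow_chain (n : ℕ) : ∀ W ∈ @nhds ℂˣ τ.toTopologicalSpace 1, ∀ᶠ a in atTop,
    (∀ j, a ≤ j → j ≤ a + n → j ∈ J) → u (a + n) / u a ∈ W := by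
  induction n with
  | zero =>
    intro W hW
    refine Eventually.of_forall fun a _ => ?_
    rw [add_zero, div_self']
    exact one_mem_of τ hW
  | succ n ih =>
    intro W hW
    obtain ⟨U, hU, hUW⟩ := mul_exists τ W hW
    have h1 := ih U hU
    have h2 : ∀ᶠ a in atTop, a + n ∈ J → a + n + 1 ∈ J → u (a + n + 1) / u (a + n) ∈ U :=
      (tendsto_add_atTop_nat n).eventually (hslow U hU)
    filter_upwards [h1, h2] with a ha hb hJ
    have h3 := ha fun j hj1 hj2 => hJ j hj1 (by omega)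
    have h4 := hb (hJ _ (by omega) (by omega)) (hJ _ (by omega) (by omega))
    have h5 := hUW _ h4 _ h3
    rwa [div_mul_div_cancel] at h5

theorem word_div (u : ℕ → ℂˣ) (m : ℕ) (e : ℂˣ) :
    wordB u m / e = ∏ r : Fin 5, (u (5 * m + r) / e) ^ wts r := by
  unfold wordB
  have h1 : ∏ r : Fin 5, (u (5 * m + r) / e) ^ wts r =
      (∏ r : Fin 5, u (5 * m + r) ^ wts r) / ∏ r : Fin 5, e ^ wts r := by
    rw [← Finset.prod_div_distrib]
    exact Finset.prod_congr rfl fun r _ => div_zpow _ _ _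
  have h2 : ∏ r : Fin 5, e ^ wts r = e := by
    rw [Fin.prod_univ_five]
    show e ^ (1 : ℤ) * e ^ (1 : ℤ) * e ^ (-1 : ℤ) * e ^ (-1 : ℤ) * e ^ (1 : ℤ) = e
    rw [← zpow_add, ← zpow_add, ← zpow_add, ← zpow_add]
    norm_num
  rw [h1, h2]

include hslow in
theorem slow_word (K : ℕ) (W : Set ℂˣ) (hW : W ∈ @nhds ℂˣ τ.toTopologicalSpace 1) :
    ∃ b₀ : ℕ, ∀ m₀, b₀ ≤ m₀ → (∀ j, 5 * m₀ ≤ j → j < 5 * (m₀ + K) → j ∈ J) →
      ∀ k < K, wordB u (m₀ + k) / u (5 * m₀) ∈ W := by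
  obtain ⟨U, hU, hUW⟩ := word_exists τ W hW
  have h1 : ∀ᶠ a in atTop, ∀ n ∈ Finset.range (5 * K),
      (∀ j, a ≤ j → j ≤ a + n → j ∈ J) → u (a + n) / u a ∈ U :=
    (Finset.range (5 * K)).eventually_all.2 fun n _ => slow_chain hslow n U hU
  obtain ⟨b₀, hb₀⟩ := eventually_atTop.1 h1
  refine ⟨b₀, fun m₀ hm hJ k hk => ?_⟩
  rw [word_div]
  refine hUW _ fun r => ?_
  have hr := r.2
  have h2 := hb₀ (5 * m₀) (by omega) (5 * k + r) (Finset.mem_range.2 (by omega))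
    fun j hj1 hj2 => hJ j hj1 (by omega)
  have h3 : 5 * (m₀ + k) + (r : ℕ) = 5 * m₀ + (5 * k + r) := by ring
  rw [h3]
  exact h2

end slow

/-- The factor of each form is in the closure of `1`. -/
theorem rigid {T : Finset ℕ} {E : Type} [Field E] {I : Type} {idx : ℕ → I}
    {form : I → FormC T E} {Y : ℕ → ExtC} {J : Set ℕ} (hY : SeqP idx form Y J)
    {τ : GroupTopology ℂˣ} {σ : ℂ ≃+* ℂ} {u : ℕ → ℂˣ}
    (hfac : ∀ᶠ j in atTop, j ∈ J → StarkW.LinIn {u j} σ (Y j).ψ)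
    (hslow : ∀ U ∈ @nhds ℂˣ τ.toTopologicalSpace 1, ∀ᶠ j in atTop,
      j ∈ J → j + 1 ∈ J → u (j + 1) / u j ∈ U)
    {kA kB kC : ℕ} (hrel : ∀ a b c : ℂˣ, (form (idx kA)).Lin {a} σ → (form (idx kB)).Lin {b} σ →
      (form (idx kC)).Lin {c} σ → a = b * c) (k : ℕ) :
    (form (idx k)).Lin (StarkW.clOne τ) σ := by
  obtain ⟨b₁, hb₁⟩ := eventually_atTop.1 hfac
  have key : ∀ W ∈ @nhds ℂˣ τ.toTopologicalSpace 1, ∃ d ∈ W, (form (idx k)).Lin {d} σ := by
    intro W hW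
    obtain ⟨V, hV, hVW⟩ := word_exists τ W hW
    set K := kA + kB + kC + k + 1 with hK
    obtain ⟨b₀, hb₀⟩ := slow_word hslow K V hV
    obtain ⟨m₀, hm, hblk, hlin⟩ := hY (K + b₀ + b₁)
    have hL : ∀ n < K, (form (idx n)).Lin {wordB u (m₀ + n)} σ := fun n hn =>
      hlin n (by omega) u σ fun r hr => hb₁ _ (by omega) (hblk _ (by omega) (by omega))
    have hV' := hb₀ m₀ (by omega) fun j h1 h2 => hblk j h1 (by omega)
    have h1 := hrel _ _ _ (hL kA (by omega)) (hL kB (by omega)) (hL kC (by omega))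
    refine ⟨_, ?_, hL k (by omega)⟩
    have hA := hV' kA (by omega)
    have hB := hV' kB (by omega)
    have hC := hV' kC (by omega)
    have hk := hV' k (by omega)
    set e := u (5 * m₀)
    set dA := wordB u (m₀ + kA)
    set dB := wordB u (m₀ + kB)
    set dC := wordB u (m₀ + kC)
    set dk := wordB u (m₀ + k)
    have h2 : dk = ∏ i : Fin 5, (![dA / e, dk / e, dB / e, dC / e, 1] : Fin 5 → ℂˣ) i ^ wts i := by
      rw [Fin.prod_univ_five]
      show dk = (dA / e) ^ (1 : ℤ) * (dk / e) ^ (1 : ℤ) * (dB / e) ^ (-1 : ℤ) *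
        (dC / e) ^ (-1 : ℤ) * (1 : ℂˣ) ^ (1 : ℤ)
      rw [h1]
      simp only [zpow_one, zpow_neg, one_zpow, mul_one]
      have e1 : (dB / e)⁻¹ = e * dB⁻¹ := by rw [inv_div]; rfl
      have e2 : (dC / e)⁻¹ = e * dC⁻¹ := by rw [inv_div]; rfl
      rw [e1, e2, div_eq_mul_inv, div_eq_mul_inv]
      have e3 : dB * dC * e⁻¹ * (dk * e⁻¹) * (e * dB⁻¹) * (e * dC⁻¹) =
          (dB * dB⁻¹) * (dC * dC⁻¹) * (e * e⁻¹) * (e * e⁻¹) * dk := by
        simp only [mul_comm, mul_assoc, mul_left_comm]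
      rw [e3]
      simp
    rw [h2]
    refine hVW _ fun i => ?_
    fin_cases i
    · exact hA
    · exact hk
    · exact hB
    · exact hC
    · exact one_mem_of τ hV
  obtain ⟨d, -, hd⟩ := key Set.univ Filter.univ_mem
  have hmem : d ∈ StarkW.clOne τ := by
    rw [clOne_eq]
    intro W hW
    obtain ⟨d', hd', hL'⟩ := key W hW
    have h1 : d = d' := linU_uniq hd hL'
    rw [h1]
    exact hd'
  intro S φ Θ hφ
  exact atU_mono (Set.singleton_subset_iff.2 hmem) (hd S φ Θ hφ)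

end ASY

end StarkC
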