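import Pool.Agent.ASY.SEQB

/-!
# Stark's conjecture and slowly varying factors
-/

set_option autoImplicit false

open NumberField IsDedekindDomain Filter
open scoped TensorProduct Classical

namespace StarkC

namespace ASY

open StarkC.EXS

section forms

variable {T : Finset ℕ} {E : Type} [Field E] [NumberField E] [IsGalois ℚ E]

theorem not_cc {N : Type} [Field N] [NumberField N] [Algebra E N] (hi : ∃ i : E, i ^ 2 = -1)
    {c : N ≃ₐ[ℚ] N} (hc : ∀ x : E, c (algebraMap E N x) = algebraMap E N x) : ¬ IsCC c := by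
  obtain ⟨i, hi⟩ := hi
  intro h
  exact SMAIN.cc_i (E := E) (N := N) hi h (hc i)

/-- Three forms with a relation between their factors. -/
theorem exists_rel (T : Finset ℕ) (E : Type) [Field E] [NumberField E] [IsGalois ℚ E]
    (hi : ∃ i : E, i ^ 2 = -1) :
    ∃ x : Fin 3 → FormC T E, ∀ (σ : ℂ ≃+* ℂ) (a b c : ℂˣ), (x 0).Lin {a} σ → (x 1).Lin {b} σ →
      (x 2).Lin {c} σ → a = b * c := by
  obtain ⟨N, _, _, _, aN, g, h1, h2, hg⟩ := exists_two E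
  have hfix : ∀ c ∈ Subgroup.zpowers g, ∀ x : E, c (algebraMap E N x) = algebraMap E N x := by
    intro c hc x
    rcases mem_two h2 hc with rfl | rfl
    · rfl
    · exact hg x
  have hcc : ∀ c ∈ Subgroup.zpowers g, ¬ IsCC c := fun c hc => not_cc hi (hfix c hc)
  have hcc0 : ∀ c ∈ (⊥ : Subgroup (N ≃ₐ[ℚ] N)), ¬ IsCC c := fun c hc => hcc c (by
    rw [Subgroup.mem_bot.1 hc]
    exact Subgroup.one_mem _)
  have tA : TyQ T E (⊥ : Subgroup (N ≃ₐ[ℚ] N)) 1 :=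
    ⟨qe_bot _, Or.inr ⟨hcc0, fun _ _ _ => rfl, fun _ _ _ _ => rfl⟩⟩
  have tB : TyQ T E (Subgroup.zpowers g) 1 :=
    ⟨qe_two (card_two h1 h2), Or.inr ⟨hcc, fun _ _ _ => rfl, fun _ _ _ _ => rfl⟩⟩
  have tC : TyQ T E (Subgroup.zpowers g) (sgn h1 h2) :=
    ⟨qe_two (card_two h1 h2), Or.inl ⟨2, Nat.prime_two, ⟨⟨1, by rw [pow_one]; exact sgn_sq h1 h2⟩,
      fun h hh => ⟨0, fun x => by
        rw [pow_zero, pow_one]
        exact hfix h hh x⟩⟩, Or.inl hcc⟩⟩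
  refine ⟨![⟨N, ⊥, 1, tA⟩, ⟨N, Subgroup.zpowers g, 1, tB⟩,
    ⟨N, Subgroup.zpowers g, sgn h1 h2, tC⟩], fun σ a b c ha hb hc => ?_⟩
  exact quad_rel σ N h1 h2 a b c ha hb hc

end forms

variable {N : ℕ → Type} [∀ k, Field (N k)] [∀ k, NumberField (N k)] [∀ k, IsGalois ℚ (N k)]

theorem conjQU_of2 (V : Subgroup ℂˣ) {σ : ℂ ≃+* ℂ} {T : Finset ℕ} {E : Type} [Field E]
    [NumberField E] (M : Task N → LevE E) (dec : ∀ t : Task N, DecAt T E t (M t))
    (hcof : ∀ (M : Type) [Field M] [NumberField M], ∃ k, Nonempty (M →+* N k))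
    (hsol : ∀ (t : Task N) (q : Pr T E (M t)), GoodA q (V : Set ℂˣ) σ)
    (h3 : StarkW.OddIn (V : Set ℂˣ) σ) : ConjQU (V : Set ℂˣ) σ := by
  intro L _ _ _ S φ Θ W W' _ _ _ _ _ _ ρ ρ' hφ hσ
  obtain ⟨k, ⟨ι⟩⟩ := hcof L
  let aLN : Algebra L (N k) := ι.toAlgebra
  have h1 : IsMonComb (fun g : N k ≃ₐ[ℚ] N k => ρ.character (AlgEquiv.restrictNormalHom L g)) :=
    SFULL.bra (N k ≃ₐ[ℚ] N k) W (ρ.comp (AlgEquiv.restrictNormalHom L))
  let t : Task N := ⟨k, ⟨_, h1⟩⟩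
  obtain ⟨aNM, hdec⟩ := dec t
  let aLM : Algebra L (M t).N :=
    ((algebraMap (N k) (M t).N).comp (algebraMap L (N k))).toAlgebra
  have hst : IsScalarTower ℚ L (M t).N :=
    IsScalarTower.of_algebraMap_eq' (Subsingleton.elim _ _)
  obtain ⟨m, H, ψ, n, hP, hF⟩ := CMB.of_mem_GS hdec
  refine of_combU (V : Set ℂˣ) σ (N := (M t).N) S φ Θ W W' ρ ρ' hφ hσ H ψ n ?_
    (fun _ => (V : Set ℂˣ)) (fun u hu => word_mem V n u hu) ?_
  · intro g
    rw [← hF g]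
    show _ = ρ.character (AlgEquiv.restrictNormalHom L
      (AlgEquiv.restrictNormalHom (N k) g : N k ≃ₐ[ℚ] N k))
    rw [SSPANZ.res_res (L := L) (N := N k) (N' := (M t).N) (fun x => rfl)]
  · intro i
    rcases hP i with h | h
    · exact hsol t ⟨⟨H i, ψ i⟩, h⟩
    · refine ofDU (V : Set ℂˣ) σ h3 _ (M t).N _
        (SMAIN.totallyReal (H i) fun c hc => (h c hc).1) ?_
      intro Φ c hc
      obtain ⟨h4, h5⟩ := h _ ⟨Φ, GOOD.isConj_symm (H i) c Φ hc⟩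
      exact h5

/-- Stark's conjecture and slowly varying factors along one sparse sequence of characters. -/
theorem mainB (T : Finset ℕ) (E₀ : Type) [Field E₀] [NumberField E₀] (ε : ℝ) (hε : 0 < ε)
    (F g : ℕ → ℕ) (hg : Tendsto g atTop atTop) :
    ∃ Y : ℕ → ExtC,
      (∀ j, F j ≤ Module.finrank ℚ (Y j).K ∧ StarkW.QExt E₀ (Y j).K ∧
        (StarkW.UnrPair T (Y j).K (Y j).L ∨ StarkW.PowPair E₀ ε (Y j).K (Y j).L)) ∧
      ∀ (τ : GroupTopology ℂˣ) (J : Set ℕ),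
        (∃ᶠ a in atTop, ∀ j, a ≤ j → j ≤ a + g a → j ∈ J) → ∀ σ : ℂ ≃+* ℂ,
        (StarkW.ConjIn (StarkW.clOne τ) σ ↔
          StarkW.SlowOne τ J σ (fun j => (Y j).K) (fun j => (Y j).L) (fun j => (Y j).ψ) ∧
            StarkW.OddIn (StarkW.clOne τ) σ) := by
  obtain ⟨N, _, _, hgal, hcof⟩ := SSQ.COF_thm
  obtain ⟨c, hc⟩ := exists_nat_one_div_lt hε
  obtain ⟨l, hlge, hlp⟩ := Nat.exists_infinite_primes (c + 3)
  obtain ⟨E, _, _, aE, _, hsp, hi⟩ := LEVE_thm E₀ l hlp.pos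
  have hlo : Odd l := hlp.odd_of_ne_two (by omega)
  have hlε : 1 ≤ ε * l := by
    have h2 : ((c : ℝ) + 1) ≤ l := by
      have : c + 1 ≤ l := by omega
      exact_mod_cast this
    have h3 : 1 < ε * ((c : ℝ) + 1) := by
      rwa [div_lt_iff₀ (by positivity)] at hc
    nlinarith
  have h1 : ∀ t : Task N, ∃ M : LevE E, DecAt T E t M := by
    intro t
    obtain ⟨N', _, _, aN, aE, _, h⟩ := decQ DECE_thm T E hi (N t.1) t.2.1 t.2.2
    exact ⟨⟨N'⟩, aN, h⟩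
  choose M hM using h1
  obtain ⟨x, hx⟩ := exists_rel T E hi
  have hout : ∀ (x : FormC T E) (B : ℕ), OutB T E ε x B := fun x B =>
    outB GCE_thm IDN5_thm FLDE_thm l ε hlp hlo hε hlε T E hsp x B
  -- the enumeration of the forms
  let I : Type := (Σ t : Task N, Pr T E (M t)) ⊕ Fin 3
  have hct := task_countable N
  have hct2 : ∀ t : Task N, Countable (Pr T E (M t)) := fun t => by
    have := pr_finite T E (M t)
    infer_instance
  have hctI : Countable I := inferInstance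
  have hneI : Nonempty I := ⟨Sum.inr 0⟩
  obtain ⟨idx, hidx⟩ := exists_surjective_nat I
  let form : I → FormC T E := Sum.elim
    (fun p => ⟨(M p.1).N, p.2.1.1, p.2.1.2, p.2.2⟩) x
  obtain ⟨Y, hY1, hY2⟩ := seqB idx form hout F g hg
  refine ⟨Y, fun j => ?_, fun τ J hJ σ => ⟨fun h => ⟨?_, ?_⟩, ?_⟩⟩
  · have h1 := pairQ_mono (Finset.Subset.refl T) (algebraMap E₀ E) (le_refl ε) (hY1 j).2
    exact ⟨(hY1 j).1, h1.2, h1.1⟩
  · have h2 : ∀ j, ∃ u ∈ StarkW.clOne τ, StarkW.LinIn {u} σ (Y j).ψ := by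
      intro j
      obtain ⟨u, hu, h3⟩ := infU_single ((linIn_iff _ σ (Y j).ψ).1
        (linIn_of_conjIn h (Y j).K (Y j).L (Y j).ψ))
      exact ⟨u, hu, (linIn_iff _ σ (Y j).ψ).2 h3⟩
    choose u hu hu2 using h2
    refine ⟨u, Eventually.of_forall fun j _ => hu2 j, fun U hU =>
      Eventually.of_forall fun j _ _ => clOne_subset τ hU ?_⟩
    rw [← clSub_coe] at hu ⊢
    exact (clSub τ).div_mem (hu (j + 1)) (hu j)
  · exact fun K L _ _ _ _ _ _ ψ _ _ => linIn_of_conjIn h K L ψ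
  · rintro ⟨⟨u, hfac, hslow⟩, hD⟩
    obtain ⟨kA, hkA⟩ := hidx (Sum.inr 0)
    obtain ⟨kB, hkB⟩ := hidx (Sum.inr 1)
    obtain ⟨kC, hkC⟩ := hidx (Sum.inr 2)
    have hrel : ∀ a b c : ℂˣ, (form (idx kA)).Lin {a} σ → (form (idx kB)).Lin {b} σ →
        (form (idx kC)).Lin {c} σ → a = b * c := by
      rw [hkA, hkB, hkC]
      exact hx σ
    have hall := rigid (hY2 J hJ) hfac hslow hrel
    rw [← clSub_coe] at hD ⊢
    refine conjIn_of_conjQU (clSub τ) (conjQU_of2 (clSub τ) M hM hcof (fun t q => ?_) hD)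
    obtain ⟨k, hk⟩ := hidx (Sum.inl ⟨t, q⟩)
    have h3 := hall k
    rw [hk] at h3
    exact h3

end ASY

end StarkC
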