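import Pool.Agent.SSQ.MAIN

/-!
# Stark's assertion up to a factor in a set
-/

set_option autoImplicit false

open NumberField IsDedekindDomain
open scoped TensorProduct Classical

namespace StarkC

namespace ASY

/-- `StarkMulAt` up to a factor in `U`. -/
def AtU (U : Set ℂˣ) {K L : Type} [Field K] [NumberField K] [Field L]
    [NumberField L] [Algebra K L] (M : ℕ) (S : Set (HeightOneSpectrum (𝓞 K)))
    (T : Set (HeightOneSpectrum (𝓞 L))) (Θ : XC L T →ₗ[ℂ] XC L T)
    {V V' : Type} [AddCommGroup V] [Module ℂ V] [AddCommGroup V'] [Module ℂ V']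
    (ρ : Representation ℂ (L ≃ₐ[K] L) V) (ρ' : Representation ℂ (L ≃ₐ[K] L) V')
    (σ : ℂ ≃+* ℂ) : Prop :=
  ∃ f f' : ℂ → ℂ, IsArtinLMul M ρ.character S f ∧ IsArtinLMul M ρ'.character S f' ∧
    ∃ u ∈ U, σ (Reg T ρ Θ ^ M / meromorphicTrailingCoeffAt f 0) =
      (u : ℂ) * (Reg T ρ' Θ ^ M / meromorphicTrailingCoeffAt f' 0)

end ASY

end StarkC
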