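import Pool.Agent.ASY.DESC

/-!
# Stark's assertion up to a factor: the factor is unique
-/

set_option autoImplicit false

open NumberField IsDedekindDomain Filter Topology
open scoped TensorProduct Classical

namespace StarkC

namespace ASY

theorem trail_ne {f : ℂ → ℂ} (hf : ∀ z, MeromorphicAt f z) (h : ∀ s : ℂ, 1 < s.re → f s ≠ 0) :
    meromorphicTrailingCoeffAt f 0 ≠ 0 := by
  intro h0
  have hm : MeromorphicOn f Set.univ := fun z _ => hf z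
  have ho : meromorphicOrderAt f 0 = ⊤ := by
    by_contra hne
    exact (hf 0).meromorphicTrailingCoeffAt_ne_zero hne h0
  have h2 : meromorphicOrderAt f 2 = ⊤ := by
    by_contra hne
    exact hm.meromorphicOrderAt_ne_top_of_isPreconnected (x := 2) isPreconnected_univ
      (Set.mem_univ _) (Set.mem_univ 0) hne ho
  rw [meromorphicOrderAt_eq_top_iff] at h2
  have h3 : {s : ℂ | 1 < s.re} ∈ 𝓝 (2 : ℂ) :=
    (isOpen_lt continuous_const Complex.continuous_re).mem_nhds (by norm_num)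
  have h4 : ∀ᶠ s in 𝓝[≠] (2 : ℂ), f s = 0 ∧ 1 < s.re :=
    h2.and (Filter.Eventually.filter_mono nhdsWithin_le_nhds h3)
  obtain ⟨s, hs, hs1⟩ := h4.exists
  exact h s hs1 hs

section

variable {K L : Type} [Field K] [NumberField K] [Field L] [NumberField L] [Algebra K L]
  [IsGalois K L]

theorem reg_ne (S : Finset (HeightOneSpectrum (𝓞 K)))
    (φ : XQ L (aboveSet K L S) ≃ₗ[ℚ] QU L (aboveSet K L S))
    (Θ : XC L (aboveSet K L S) →ₗ[ℂ] XC L (aboveSet K L S))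
    (hφ : IsPhiTheta K (aboveSet K L S) φ Θ)
    (V : Type) [AddCommGroup V] [Module ℂ V] [Module.Finite ℂ V]
    (ρ : Representation ℂ (L ≃ₐ[K] L) V) : Reg (aboveSet K L S) ρ Θ ≠ 0 := by
  have hTf : (aboveSet K L (S : Set (HeightOneSpectrum (𝓞 K)))).Finite :=
    IND.aboveSet_finite _ S.finite_toSet
  have hT := STB_thm K L (S : Set (HeightOneSpectrum (𝓞 K)))
  have hc := ALLT.thc K L _ hT φ Θ hTf hφ
  have hb := ALLT.thb K L _ φ Θ hTf hφ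
  obtain ⟨W, _, _, _, B, hdet, hne, -⟩ := ALLT.rgt K L _ hT Θ V ρ hTf hc hb
  rw [← hdet]
  exact hne

theorem at_uniq {S : Finset (HeightOneSpectrum (𝓞 K))}
    {φ : XQ L (aboveSet K L S) ≃ₗ[ℚ] QU L (aboveSet K L S)}
    {Θ : XC L (aboveSet K L S) →ₗ[ℂ] XC L (aboveSet K L S)}
    (hφ : IsPhiTheta K (aboveSet K L S) φ Θ)
    {V V' : Type} [AddCommGroup V] [Module ℂ V] [AddCommGroup V'] [Module ℂ V']
    [Module.Finite ℂ V']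
    {ρ : Representation ℂ (L ≃ₐ[K] L) V} {ρ' : Representation ℂ (L ≃ₐ[K] L) V'}
    {σ : ℂ ≃+* ℂ} {u v : ℂˣ}
    (hu : AtU {u} 1 (S : Set (HeightOneSpectrum (𝓞 K))) (aboveSet K L S) Θ ρ ρ' σ)
    (hv : AtU {v} 1 (S : Set (HeightOneSpectrum (𝓞 K))) (aboveSet K L S) Θ ρ ρ' σ) : u = v := by
  obtain ⟨f, f', hf, hf', w, hw, hE⟩ := hu
  obtain ⟨g, g', hg, hg', w', hw', hE2⟩ := hv
  rw [Set.mem_singleton_iff] at hw hw'
  subst hw hw'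
  have e1 : meromorphicTrailingCoeffAt g 0 = meromorphicTrailingCoeffAt f 0 :=
    RIG.trail_unique hg.1 hf.1 fun s hs => by rw [hg.2 s hs, hf.2 s hs]
  have e2 : meromorphicTrailingCoeffAt g' 0 = meromorphicTrailingCoeffAt f' 0 :=
    RIG.trail_unique hg'.1 hf'.1 fun s hs => by rw [hg'.2 s hs, hf'.2 s hs]
  rw [e1, e2, hE] at hE2
  have h0 : Reg (aboveSet K L S) ρ' Θ ^ 1 / meromorphicTrailingCoeffAt f' 0 ≠ 0 := by
    refine div_ne_zero (pow_ne_zero _ (reg_ne S φ Θ hφ V' ρ')) (trail_ne hf'.1 fun s hs => ?_)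
    rw [hf'.2 s hs]
    exact Complex.exp_ne_zero _
  exact Units.ext (mul_right_cancel₀ h0 hE2)

theorem linU_uniq {σ : ℂ ≃+* ℂ} {ψ : (L ≃ₐ[K] L) →* ℂˣ} {u v : ℂˣ}
    (hu : LinU {u} σ K L ψ) (hv : LinU {v} σ K L ψ) : u = v := by
  obtain ⟨φ, Θ, h⟩ := SFULL.exph K L ∅
  exact at_uniq h (hu ∅ φ Θ h) (hv ∅ φ Θ h)

/-- One factor for all `S`, `φ`. -/
theorem linU_single {U : Set ℂˣ} {σ : ℂ ≃+* ℂ} {ψ : (L ≃ₐ[K] L) →* ℂˣ}
    (h : LinU U σ K L ψ) : ∃ u ∈ U, LinU {u} σ K L ψ := by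
  obtain ⟨φ, Θ, hφ⟩ := SFULL.exph K L ∅
  obtain ⟨f, f', hf, hf', u, hu, hE⟩ := h ∅ φ Θ hφ
  refine ⟨u, hu, fun S₂ φ₂ Θ₂ h₂ => ?_⟩
  exact sindU {u} K L ψ σ 1 ∅ S₂ φ Θ φ₂ Θ₂ hφ h₂ ⟨f, f', hf, hf', u, rfl, hE⟩

theorem infU_single {U : Set ℂˣ} {σ : ℂ ≃+* ℂ} {ψ : (L ≃ₐ[K] L) →* ℂˣ}
    (h : InfU U σ K L ψ) : ∃ u ∈ U, InfU {u} σ K L ψ := by
  obtain ⟨φ, Θ, hφ⟩ := SFULL.exph K L ∅
  obtain ⟨f, f', hf, hf', u, hu, hE⟩ := h φ Θ hφ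
  refine ⟨u, hu, fun φ₂ Θ₂ h₂ => ?_⟩
  exact sindU {u} K L ψ σ 1 ∅ ∅ φ Θ φ₂ Θ₂ hφ h₂ ⟨f, f', hf, hf', u, rfl, hE⟩

end

end ASY

end StarkC
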